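import Mathlib

set_option autoImplicit false

/-! # Randomly displaced points: empty sets, second moment -/

open MeasureTheory ProbabilityTheory Filter Finset Topology

namespace Pool.Agent.U839.Disp

variable {Ω : Type*} [MeasurableSpace Ω] {μ : Measure Ω} [IsProbabilityMeasure μ]

/-- second moment method for negatively correlated events -/
theorem second_moment (S : Finset ℕ) (F : ℕ → Set Ω) (hF : ∀ i ∈ S, MeasurableSet (F i))
    (hneg : ∀ i ∈ S, ∀ j ∈ S, i ≠ j → μ.real (F i ∩ F j) ≤ μ.real (F i) * μ.real (F j))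
    (hpos : 0 < ∑ i ∈ S, μ.real (F i)) :
    μ.real (⋂ i ∈ S, (F i)ᶜ) ≤ 1 / ∑ i ∈ S, μ.real (F i) := by
  classical
  set m : ℝ := ∑ i ∈ S, μ.real (F i) with hm
  set f : ℕ → Ω → ℝ := fun i => (F i).indicator (fun _ => (1 : ℝ)) with hf
  set N : Ω → ℝ := fun ω => ∑ i ∈ S, f i ω with hN
  have hfi : ∀ i ∈ S, Integrable (f i) μ := fun i hi =>
    (integrable_const (1 : ℝ)).indicator (hF i hi)
  have hf1 : ∀ i ∈ S, ∫ ω, f i ω ∂μ = μ.real (F i) := by
    intro i hi
    rw [hf]
    simp only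
    rw [integral_indicator_const _ (hF i hi)]
    simp
  have hff : ∀ i ∈ S, ∀ j ∈ S, Integrable (fun ω => f i ω * f j ω) μ ∧
      ∫ ω, f i ω * f j ω ∂μ = μ.real (F i ∩ F j) := by
    intro i hi j hj
    have e : (fun ω => f i ω * f j ω) = (F i ∩ F j).indicator (fun _ => (1 : ℝ)) := by
      funext ω
      rw [hf]
      simp only [Set.indicator_apply, Set.mem_inter_iff]
      by_cases h1 : ω ∈ F i <;> by_cases h2 : ω ∈ F j <;> simp [h1, h2]
    rw [e]
    refine ⟨(integrable_const (1 : ℝ)).indicator ((hF i hi).inter (hF j hj)), ?_⟩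
    rw [integral_indicator_const _ ((hF i hi).inter (hF j hj))]
    simp
  -- second moment
  have hNint : Integrable N μ := integrable_finsetSum S hfi
  have hN1 : ∫ ω, N ω ∂μ = m := by
    rw [hN, integral_finsetSum S hfi]
    exact Finset.sum_congr rfl hf1
  have hN2e : (fun ω => N ω ^ 2) = fun ω => ∑ i ∈ S, ∑ j ∈ S, f i ω * f j ω := by
    funext ω
    rw [hN]
    simp only
    rw [sq, Finset.sum_mul_sum]
  have hN2i : Integrable (fun ω => N ω ^ 2) μ := by
    rw [hN2e]
    exact integrable_finsetSum S fun i hi => integrable_finsetSum S fun j hj => (hff i hi j hj).1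
  have hN2 : ∫ ω, N ω ^ 2 ∂μ ≤ m + m ^ 2 := by
    rw [hN2e, integral_finsetSum S fun i hi => integrable_finsetSum S fun j hj => (hff i hi j hj).1]
    have h1 : ∀ i ∈ S, ∫ ω, ∑ j ∈ S, f i ω * f j ω ∂μ ≤ μ.real (F i) + μ.real (F i) * m := by
      intro i hi
      rw [integral_finsetSum S fun j hj => (hff i hi j hj).1]
      rw [← Finset.add_sum_erase S _ hi, (hff i hi i hi).2, Set.inter_self]
      apply add_le_add le_rfl
      rw [hm, Finset.mul_sum]
      calc ∑ j ∈ S.erase i, ∫ ω, f i ω * f j ω ∂μ ≤ ∑ j ∈ S.erase i, μ.real (F i) * μ.real (F j) := by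
            apply Finset.sum_le_sum
            intro j hj
            rw [Finset.mem_erase] at hj
            rw [(hff i hi j hj.2).2]
            exact hneg i hi j hj.2 (Ne.symm hj.1)
        _ ≤ _ := by
            apply Finset.sum_le_sum_of_subset_of_nonneg (Finset.erase_subset _ _)
            intro j _ _
            exact mul_nonneg measureReal_nonneg measureReal_nonneg
    calc _ ≤ ∑ i ∈ S, (μ.real (F i) + μ.real (F i) * m) := Finset.sum_le_sum h1
      _ = m + m ^ 2 := by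
          rw [Finset.sum_add_distrib, ← Finset.sum_mul, ← hm]
          ring
  -- Chebyshev
  set Z : Set Ω := ⋂ i ∈ S, (F i)ᶜ with hZ
  have hZm : MeasurableSet Z := Finset.measurableSet_biInter S fun i hi => (hF i hi).compl
  have hcheb : m ^ 2 * μ.real Z ≤ ∫ ω, (N ω - m) ^ 2 ∂μ := by
    have e1 : ∫ ω, Z.indicator (fun _ => m ^ 2) ω ∂μ = m ^ 2 * μ.real Z := by
      rw [integral_indicator_const _ hZm]
      rw [smul_eq_mul, mul_comm]
    rw [← e1]
    apply integral_mono
    · exact (integrable_const _).indicator hZm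
    · have : (fun ω => (N ω - m) ^ 2) = fun ω => N ω ^ 2 - 2 * m * N ω + m ^ 2 := by
        funext ω; ring
      rw [this]
      exact (hN2i.sub (hNint.const_mul _)).add (integrable_const _)
    · intro ω
      by_cases hω : ω ∈ Z
      · rw [Set.indicator_of_mem hω]
        have hN0 : N ω = 0 := by
          rw [hN]
          simp only
          apply Finset.sum_eq_zero
          intro i hi
          rw [hf]
          simp only
          apply Set.indicator_of_notMem
          rw [hZ, Set.mem_iInter₂] at hω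
          exact hω i hi
        show m ^ 2 ≤ (N ω - m) ^ 2
        rw [hN0]
        ring_nf
        exact le_rfl
      · rw [Set.indicator_of_notMem hω]
        exact sq_nonneg _
  have hvar : ∫ ω, (N ω - m) ^ 2 ∂μ ≤ m := by
    have e2 : (fun ω => (N ω - m) ^ 2) = fun ω => (N ω ^ 2 - 2 * m * N ω) + m ^ 2 := by
      funext ω; ring
    have g1 : Integrable (fun ω => 2 * m * N ω) μ := hNint.const_mul _
    have g2 : Integrable (fun ω => N ω ^ 2 - 2 * m * N ω) μ := hN2i.sub g1
    rw [e2, integral_add g2 (integrable_const _),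
      integral_sub hN2i g1, integral_const_mul, hN1, integral_const]
    simp only [probReal_univ, one_smul]
    linarith [hN2, sq m]
  rw [le_div_iff₀ hpos]
  have h1 : m * (m * μ.real Z) ≤ m * 1 := by
    calc m * (m * μ.real Z) = m ^ 2 * μ.real Z := by ring
      _ ≤ m := hcheb.trans hvar
      _ = m * 1 := by ring
  have := le_of_mul_le_mul_left h1 hpos
  linarith

/-- no displaced prime is in `I` -/
def EE (ξ : ℕ → Ω → ℕ) (I : Finset ℕ) : Set Ω := {ω | ∀ p : ℕ, p.Prime → p + ξ p ω ∉ I}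

/-- hitting events -/
def HH (ξ : ℕ → Ω → ℕ) (I : Finset ℕ) (p : ℕ) : Set Ω := {ω | p + ξ p ω ∈ I}

omit [IsProbabilityMeasure μ] in
theorem HH_meas {ξ : ℕ → Ω → ℕ} (hm : ∀ p, Measurable (ξ p)) (I : Finset ℕ) (p : ℕ) :
    MeasurableSet (HH ξ I p) := by
  have : HH ξ I p = ξ p ⁻¹' {j | p + j ∈ I} := rfl
  rw [this]
  exact hm p (MeasurableSet.of_discrete)

omit [MeasurableSpace Ω] in
theorem EE_eq (ξ : ℕ → Ω → ℕ) (I : Finset ℕ) (N : ℕ) (hN : ∀ i ∈ I, i ≤ N) :
    EE ξ I = ⋂ p ∈ (Icc 1 N).filter Nat.Prime, ξ p ⁻¹' {j | p + j ∉ I} := by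
  ext ω
  rw [Set.mem_iInter₂]
  constructor
  · intro h p hp
    rw [Finset.mem_filter] at hp
    exact h p hp.2
  · intro h p hp hI
    have h1 := hN _ hI
    have h2 := h p (by
      rw [Finset.mem_filter, Finset.mem_Icc]
      exact ⟨⟨hp.one_lt.le, by omega⟩, hp⟩)
    exact h2 hI

theorem EE_prod {ξ : ℕ → Ω → ℕ} (hm : ∀ p, Measurable (ξ p)) (hind : iIndepFun ξ μ)
    (I : Finset ℕ) (N : ℕ) (hN : ∀ i ∈ I, i ≤ N) :
    μ.real (EE ξ I) = ∏ p ∈ (Icc 1 N).filter Nat.Prime, (1 - μ.real (HH ξ I p)) := by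
  rw [EE_eq ξ I N hN]
  have h1 := hind.measure_inter_preimage_eq_mul ((Icc 1 N).filter Nat.Prime)
    (sets := fun p => {j | p + j ∉ I}) (fun p _ => MeasurableSet.of_discrete)
  rw [measureReal_def, h1, ENNReal.toReal_prod]
  apply Finset.prod_congr rfl
  intro p _
  have h2 : ξ p ⁻¹' {j | p + j ∉ I} = (HH ξ I p)ᶜ := by
    ext ω
    rfl
  rw [h2, ← measureReal_def, probReal_compl_eq_one_sub (HH_meas hm I p)]

omit [IsProbabilityMeasure μ] in
theorem EE_meas {ξ : ℕ → Ω → ℕ} (hm : ∀ p, Measurable (ξ p)) (I : Finset ℕ) :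
    MeasurableSet (EE ξ I) := by
  rw [EE_eq ξ I (I.sup id) (fun i hi => Finset.le_sup (f := id) hi)]
  apply Finset.measurableSet_biInter
  intro p _
  exact hm p (MeasurableSet.of_discrete)

theorem EE_neg {ξ : ℕ → Ω → ℕ} (hm : ∀ p, Measurable (ξ p)) (hind : iIndepFun ξ μ)
    (I J : Finset ℕ) (hIJ : Disjoint I J) :
    μ.real (EE ξ I ∩ EE ξ J) ≤ μ.real (EE ξ I) * μ.real (EE ξ J) := by
  classical
  have h1 : EE ξ I ∩ EE ξ J = EE ξ (I ∪ J) := by
    ext ω
    simp only [EE, Set.mem_inter_iff, Set.mem_ofPred_eq, Finset.mem_union, not_or]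
    constructor
    · rintro ⟨h1, h2⟩ p hp
      exact ⟨h1 p hp, h2 p hp⟩
    · intro h
      exact ⟨fun p hp => (h p hp).1, fun p hp => (h p hp).2⟩
  set N : ℕ := (I ∪ J).sup id with hN
  have hN0 : ∀ i ∈ I ∪ J, i ≤ N := fun i hi => Finset.le_sup (f := id) hi
  rw [h1, EE_prod hm hind (I ∪ J) N hN0,
    EE_prod hm hind I N (fun i hi => hN0 i (Finset.mem_union_left _ hi)),
    EE_prod hm hind J N (fun i hi => hN0 i (Finset.mem_union_right _ hi)), ← Finset.prod_mul_distrib]
  apply Finset.prod_le_prod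
  · intro p _
    have := measureReal_le_one (μ := μ) (s := HH ξ (I ∪ J) p)
    linarith
  · intro p _
    have h2 : μ.real (HH ξ (I ∪ J) p) = μ.real (HH ξ I p) + μ.real (HH ξ J p) := by
      have h3 : HH ξ (I ∪ J) p = HH ξ I p ∪ HH ξ J p := by
        ext ω
        simp only [HH, Set.mem_union, Set.mem_ofPred_eq, Finset.mem_union]
      rw [h3]
      apply measureReal_union _ (HH_meas hm J p)
      rw [Set.disjoint_left]
      intro ω h4 h5
      exact Finset.disjoint_left.1 hIJ h4 h5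
    rw [h2]
    have h3 := mul_nonneg (measureReal_nonneg (μ := μ) (s := HH ξ I p))
      (measureReal_nonneg (μ := μ) (s := HH ξ J p))
    nlinarith

/-- Borel-Cantelli for empty sets -/
theorem ae_empty {ξ : ℕ → Ω → ℕ} (hm : ∀ p, Measurable (ξ p)) (hind : iIndepFun ξ μ)
    (β : ℝ) (hβ : 0 < β) (P : ℕ → Finset ℕ → Prop)
    (h : ∀ᶠ j : ℕ in atTop, ∃ (S : Finset ℕ) (I : ℕ → Finset ℕ),
      (∀ i ∈ S, ∀ i' ∈ S, i ≠ i' → Disjoint (I i) (I i')) ∧ (∀ i ∈ S, P j (I i)) ∧
      (2 : ℝ) ^ (β * j) ≤ ∑ i ∈ S, μ.real (EE ξ (I i))) :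
    ∀ᵐ ω ∂μ, ∀ᶠ j : ℕ in atTop, ∃ I : Finset ℕ, P j I ∧ ω ∈ EE ξ I := by
  classical
  obtain ⟨x₀, hx₀⟩ := eventually_atTop.1 h
  choose! S I h1 h2 h3 using hx₀
  set bad : ℕ → Set Ω := fun x => if x₀ ≤ x then ⋂ i ∈ S x, (EE ξ (I x i))ᶜ else ∅ with hbad
  have hb : ∀ x, μ.real (bad x) ≤ ((2 : ℝ) ^ (-β)) ^ x := by
    intro x
    have e : ((2 : ℝ) ^ (-β)) ^ x = 1 / (2 : ℝ) ^ (β * x) := by
      rw [← Real.rpow_natCast, ← Real.rpow_mul (by norm_num), one_div, ← Real.rpow_neg (by norm_num)]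
      congr 1
      ring
    rw [hbad]
    simp only
    split_ifs with hx
    · have hp : 0 < (2 : ℝ) ^ (β * x) := by positivity
      have hs := h3 x hx
      refine (second_moment (S x) (fun i => EE ξ (I x i)) (fun i _ => EE_meas hm _)
        (fun i hi j hj hij => EE_neg hm hind _ _ (h1 x hx i hi j hj hij)) (hp.trans_le hs)).trans ?_
      rw [e]
      exact one_div_le_one_div_of_le hp hs
    · simp only [measureReal_empty]
      positivity
  have hr : (2 : ℝ) ^ (-β) < 1 := by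
    apply Real.rpow_lt_one_of_one_lt_of_neg (by norm_num) (by linarith)
  have hsum : Summable (fun x : ℕ => ((2 : ℝ) ^ (-β)) ^ x) :=
    summable_geometric_of_lt_one (by positivity) hr
  have htot : ∑' x, μ (bad x) ≠ ⊤ := by
    have h5 : ∀ x, μ (bad x) ≤ ENNReal.ofReal (((2 : ℝ) ^ (-β)) ^ x) := by
      intro x
      rw [← ENNReal.ofReal_toReal (measure_ne_top μ (bad x))]
      exact ENNReal.ofReal_le_ofReal (hb x)
    exact ne_top_of_le_ne_top hsum.tsum_ofReal_ne_top (ENNReal.tsum_le_tsum h5)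
  filter_upwards [ae_eventually_notMem htot] with ω hω
  filter_upwards [hω, eventually_ge_atTop x₀] with x hx hxx
  rw [hbad] at hx
  simp only [if_pos hxx] at hx
  simp only [Set.mem_iInter, not_forall] at hx
  obtain ⟨i, hi, hi2⟩ := hx
  rw [Set.notMem_compl_iff] at hi2
  exact ⟨I x i, h2 x hxx i hi, hi2⟩

end Pool.Agent.U839.Disp
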