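import Mathlib
import Pool.Agent.U839.Disp.Prob

set_option autoImplicit false

/-! # Uniform displacements: hitting probabilities -/

open MeasureTheory ProbabilityTheory Filter Finset Topology

namespace Pool.Agent.U839.Disp

variable {Ω : Type*} [MeasurableSpace Ω] {μ : Measure Ω} [IsProbabilityMeasure μ]

/-- elementary bound for `1 - x` -/
theorem one_sub_ge (x : ℝ) (hx : 0 ≤ x) (hx1 : x ≤ 1 / 2) : Real.exp (-(x + 2 * x ^ 2)) ≤ 1 - x := by
  have h1 : 0 < 1 - x := by linarith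
  rw [← Real.le_log_iff_exp_le h1]
  have h2 := Real.one_sub_inv_le_log_of_pos h1
  have h3 : 1 - (1 - x)⁻¹ = -(x / (1 - x)) := by
    field_simp
    ring
  rw [h3] at h2
  refine le_trans ?_ h2
  rw [neg_le_neg_iff, div_le_iff₀ h1]
  nlinarith [mul_nonneg hx hx, mul_nonneg (mul_nonneg hx hx) (show 0 ≤ 1 - 2 * x by linarith)]

/-- the laws: `ξ p` is uniform on `{1, …, D p}` -/
def Law (μ : Measure Ω) (ξ : ℕ → Ω → ℕ) (D : ℕ → ℕ) : Prop :=
  ∀ p : ℕ, p.Prime → ∀ j : ℕ, μ.real (ξ p ⁻¹' {j}) = if 1 ≤ j ∧ j ≤ D p then 1 / (D p : ℝ) else 0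

theorem HH_sum {ξ : ℕ → Ω → ℕ} (hm : ∀ p, Measurable (ξ p)) (I : Finset ℕ) (p : ℕ) :
    μ.real (HH ξ I p) = ∑ i ∈ I.filter (fun i => p ≤ i), μ.real (ξ p ⁻¹' {i - p}) := by
  classical
  have h1 : HH ξ I p = ⋃ i ∈ I.filter (fun i => p ≤ i), ξ p ⁻¹' {i - p} := by
    ext ω
    simp only [HH, Set.mem_ofPred_eq, Set.mem_iUnion, Finset.mem_filter, Set.mem_preimage,
      Set.mem_singleton_iff, exists_prop]
    constructor
    · intro h
      exact ⟨p + ξ p ω, ⟨h, Nat.le_add_right _ _⟩, by omega⟩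
    · rintro ⟨i, ⟨hi, hpi⟩, h⟩
      rw [h]
      have : p + (i - p) = i := by omega
      rw [this]
      exact hi
  rw [h1, measureReal_biUnion_finset]
  · intro i hi i' hi' hne
    rw [Function.onFun, Set.disjoint_left]
    intro ω h2 h3
    rw [Finset.mem_coe, Finset.mem_filter] at hi hi'
    rw [Set.mem_preimage, Set.mem_singleton_iff] at h2 h3
    apply hne
    omega
  · intro i _
    exact hm p (measurableSet_singleton _)

theorem HH_le {ξ : ℕ → Ω → ℕ} (hm : ∀ p, Measurable (ξ p)) {D : ℕ → ℕ} (hL : Law μ ξ D)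
    (I : Finset ℕ) {p : ℕ} (hp : p.Prime) : μ.real (HH ξ I p) ≤ I.card / (D p : ℝ) := by
  rw [HH_sum hm]
  calc ∑ i ∈ I.filter (fun i => p ≤ i), μ.real (ξ p ⁻¹' {i - p}) ≤
      ∑ _i ∈ I.filter (fun i => p ≤ i), 1 / (D p : ℝ) := by
        apply Finset.sum_le_sum
        intro i _
        rw [hL p hp]
        split_ifs
        · exact le_rfl
        · positivity
    _ = (I.filter (fun i => p ≤ i)).card * (1 / (D p : ℝ)) := by
        rw [Finset.sum_const, nsmul_eq_mul]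
    _ ≤ I.card * (1 / (D p : ℝ)) := by
        gcongr
        exact Finset.filter_subset _ _
    _ = _ := by ring

theorem HH_zero {ξ : ℕ → Ω → ℕ} (hm : ∀ p, Measurable (ξ p)) {D : ℕ → ℕ} (hL : Law μ ξ D)
    (I : Finset ℕ) {p : ℕ} (hp : p.Prime) (h : ∀ i ∈ I, i ≤ p ∨ p + D p < i) :
    μ.real (HH ξ I p) = 0 := by
  rw [HH_sum hm]
  apply Finset.sum_eq_zero
  intro i hi
  rw [Finset.mem_filter] at hi
  rw [hL p hp, if_neg]
  rcases h i hi.1 with h1 | h1
  · omega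
  · omega

theorem HH_eq {ξ : ℕ → Ω → ℕ} (hm : ∀ p, Measurable (ξ p)) {D : ℕ → ℕ} (hL : Law μ ξ D)
    (I : Finset ℕ) {p : ℕ} (hp : p.Prime) (h : ∀ i ∈ I, p < i ∧ i ≤ p + D p) :
    μ.real (HH ξ I p) = I.card / (D p : ℝ) := by
  rw [HH_sum hm]
  have h1 : I.filter (fun i => p ≤ i) = I := by
    apply Finset.filter_true_of_mem
    intro i hi
    exact (h i hi).1.le
  rw [h1]
  have h2 : ∀ i ∈ I, μ.real (ξ p ⁻¹' {i - p}) = 1 / (D p : ℝ) := by
    intro i hi
    have := h i hi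
    rw [hL p hp, if_pos (by omega)]
  rw [Finset.sum_congr rfl h2, Finset.sum_const, nsmul_eq_mul]
  ring

theorem EE_lower {ξ : ℕ → Ω → ℕ} (hm : ∀ p, Measurable (ξ p)) (hind : iIndepFun ξ μ)
    (I T : Finset ℕ) (b : ℝ) (hb0 : 0 ≤ b) (hb : b ≤ 1 / 2)
    (hT0 : ∀ p : ℕ, p.Prime → p ∉ T → μ.real (HH ξ I p) = 0)
    (hTb : ∀ p ∈ T, p.Prime → μ.real (HH ξ I p) ≤ b) :
    Real.exp (-((b + 2 * b ^ 2) * T.card)) ≤ μ.real (EE ξ I) := by
  classical
  rw [EE_prod hm hind I (I.sup id) (fun i hi => Finset.le_sup (f := id) hi)]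
  set Pr := (Icc 1 (I.sup id)).filter Nat.Prime with hPr
  have h1 : ∀ p ∈ Pr, (if p ∈ T then Real.exp (-(b + 2 * b ^ 2)) else 1) ≤ 1 - μ.real (HH ξ I p) := by
    intro p hp
    rw [hPr, Finset.mem_filter] at hp
    split_ifs with hpT
    · have h2 := hTb p hpT hp.2
      have h3 := one_sub_ge b hb0 hb
      linarith
    · rw [hT0 p hp.2 hpT]
      linarith
  refine le_trans ?_ (Finset.prod_le_prod (fun p _ => by split_ifs <;> positivity) h1)
  rw [Finset.prod_ite, Finset.prod_const_one, mul_one, Finset.prod_const, ← Real.exp_nat_mul]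
  apply Real.exp_le_exp.2
  rw [mul_neg, neg_le_neg_iff, mul_comm]
  apply mul_le_mul_of_nonneg_left _ (by positivity)
  have h4 : (Pr.filter (fun p => p ∈ T)).card ≤ T.card :=
    Finset.card_le_card (fun p hp => (Finset.mem_filter.1 hp).2)
  exact_mod_cast h4

theorem EE_upper {ξ : ℕ → Ω → ℕ} (hm : ∀ p, Measurable (ξ p)) (hind : iIndepFun ξ μ)
    (I T : Finset ℕ) (b : ℝ) (hTp : ∀ p ∈ T, p.Prime) (hTb : ∀ p ∈ T, b ≤ μ.real (HH ξ I p)) :
    μ.real (EE ξ I) ≤ Real.exp (-(b * T.card)) := by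
  classical
  have hN : ∀ i ∈ I, i ≤ max (I.sup id) (T.sup id) := fun i hi =>
    le_max_of_le_left (Finset.le_sup (f := id) hi)
  rw [EE_prod hm hind I _ hN]
  set Pr := (Icc 1 (max (I.sup id) (T.sup id))).filter Nat.Prime with hPr
  have hTPr : T ⊆ Pr := by
    intro p hp
    rw [hPr, Finset.mem_filter, Finset.mem_Icc]
    exact ⟨⟨(hTp p hp).one_lt.le, le_max_of_le_right (Finset.le_sup (f := id) hp)⟩, hTp p hp⟩
  have h0 : ∀ p, 0 ≤ 1 - μ.real (HH ξ I p) := by
    intro p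
    have := measureReal_le_one (μ := μ) (s := HH ξ I p)
    linarith
  have h1 : ∏ p ∈ Pr, (1 - μ.real (HH ξ I p)) ≤ ∏ p ∈ T, (1 - μ.real (HH ξ I p)) := by
    rw [← Finset.prod_sdiff hTPr]
    have h2 : ∏ p ∈ Pr \ T, (1 - μ.real (HH ξ I p)) ≤ 1 := by
      apply Finset.prod_le_one (fun p _ => h0 p)
      intro p _
      have := measureReal_nonneg (μ := μ) (s := HH ξ I p)
      linarith
    calc _ ≤ 1 * ∏ p ∈ T, (1 - μ.real (HH ξ I p)) := by
          apply mul_le_mul_of_nonneg_right h2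
          exact Finset.prod_nonneg fun p _ => h0 p
      _ = _ := one_mul _
  refine h1.trans ?_
  calc ∏ p ∈ T, (1 - μ.real (HH ξ I p)) ≤ ∏ _p ∈ T, Real.exp (-b) := by
        apply Finset.prod_le_prod (fun p _ => h0 p)
        intro p hp
        have h3 := hTb p hp
        have h4 := Real.add_one_le_exp (-b)
        linarith
    _ = _ := by
        rw [Finset.prod_const, ← Real.exp_nat_mul]
        congr 1
        ring

end Pool.Agent.U839.Disp
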