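import Mathlib
import Pool.Agent.R518.Drift

set_option autoImplicit false

/-! # Primes in intervals of length about `t / (log t) ^ B` -/

open Filter Finset Topology
open Pool.Agent.H442R2.EHI (lis)

namespace Pool.Agent.U839.Disp

theorem tlog : Tendsto (fun n : ℕ => Real.log (n : ℝ)) atTop atTop :=
  Real.tendsto_log_atTop.comp tendsto_natCast_atTop_atTop

/-- the number of primes in `(a, b]` -/
def pi2 (a b : ℕ) : ℕ := ((Ioc a b).filter Nat.Prime).card

theorem pi2_eq (a b : ℕ) (hab : a ≤ b) :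
    (pi2 a b : ℝ) = (Nat.primeCounting b : ℝ) - Nat.primeCounting a := by
  rw [Pool.Agent.R518.Drift.pc_eq, Pool.Agent.R518.Drift.pc_eq]
  have h1 : (Icc 1 b).filter (fun p : ℕ => p.Prime) =
      ((Icc 1 a).filter (fun p : ℕ => p.Prime)) ∪ ((Ioc a b).filter Nat.Prime) := by
    ext p
    simp only [Finset.mem_union, Finset.mem_filter, Finset.mem_Icc, Finset.mem_Ioc]
    constructor
    · rintro ⟨⟨h1, h2⟩, h3⟩
      by_cases h : p ≤ a
      · exact Or.inl ⟨⟨h1, h⟩, h3⟩
      · exact Or.inr ⟨⟨by omega, h2⟩, h3⟩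
    · rintro (⟨⟨h1, h2⟩, h3⟩ | ⟨⟨h1, h2⟩, h3⟩)
      · exact ⟨⟨h1, by omega⟩, h3⟩
      · exact ⟨⟨h3.one_lt.le, h2⟩, h3⟩
  have h2 : Disjoint ((Icc 1 a).filter (fun p : ℕ => p.Prime)) ((Ioc a b).filter Nat.Prime) := by
    rw [Finset.disjoint_left]
    intro p hp hp'
    simp only [Finset.mem_filter, Finset.mem_Icc, Finset.mem_Ioc] at hp hp'
    omega
  rw [h1, Finset.card_union_of_disjoint h2, pi2]
  push_cast
  ring

theorem lis_diff (a b : ℕ) (ha : 2 ≤ a) (hab : a ≤ b) :
    ((b : ℝ) - a) / Real.log b ≤ lis b - lis a ∧ lis b - lis a ≤ ((b : ℝ) - a) / Real.log a := by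
  have hla : 0 < Real.log a := Real.log_pos (by exact_mod_cast (by omega : 1 < a))
  have h1 : lis b - lis a = ∑ n ∈ Ioc a b, 1 / Real.log n := by
    unfold Pool.Agent.H442R2.EHI.lis
    have h2 : Icc 2 b = Icc 2 a ∪ Ioc a b := by
      ext n
      simp only [Finset.mem_union, Finset.mem_Icc, Finset.mem_Ioc]
      omega
    have h3 : Disjoint (Icc 2 a) (Ioc a b) := by
      rw [Finset.disjoint_left]
      intro n hn hn'
      simp only [Finset.mem_Icc, Finset.mem_Ioc] at hn hn'
      omega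
    rw [h2, Finset.sum_union h3]
    ring
  have hcard : ((Ioc a b).card : ℝ) = (b : ℝ) - a := by
    rw [Nat.card_Ioc, Nat.cast_sub hab]
  rw [h1]
  constructor
  · calc ((b : ℝ) - a) / Real.log b = ∑ _n ∈ Ioc a b, 1 / Real.log b := by
          rw [Finset.sum_const, nsmul_eq_mul, hcard]; ring
      _ ≤ _ := by
          apply Finset.sum_le_sum
          intro n hn
          rw [Finset.mem_Ioc] at hn
          have h4 : Real.log a ≤ Real.log n :=
            Real.log_le_log (by exact_mod_cast (by omega : 0 < a)) (by exact_mod_cast hn.1.le)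
          have h5 : Real.log n ≤ Real.log b :=
            Real.log_le_log (by exact_mod_cast (by omega : 0 < n)) (by exact_mod_cast hn.2)
          exact one_div_le_one_div_of_le (by linarith) h5
  · calc ∑ n ∈ Ioc a b, 1 / Real.log n ≤ ∑ _n ∈ Ioc a b, 1 / Real.log a := by
          apply Finset.sum_le_sum
          intro n hn
          rw [Finset.mem_Ioc] at hn
          have h4 : Real.log a ≤ Real.log n :=
            Real.log_le_log (by exact_mod_cast (by omega : 0 < a)) (by exact_mod_cast hn.1.le)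
          exact one_div_le_one_div_of_le hla h4
      _ = _ := by
          rw [Finset.sum_const, nsmul_eq_mul, hcard]; ring

/-- `E t = t / (log t) ^ B` -/
noncomputable def EB (B : ℕ) (t : ℕ) : ℝ := (t : ℝ) / (Real.log t) ^ B

theorem EB_large (B : ℕ) (C : ℝ) (k : ℕ) : ∀ᶠ t : ℕ in atTop, C * (Real.log t) ^ k ≤ EB B t := by
  have h1 := (isLittleO_log_rpow_rpow_atTop ((B : ℝ) + k) (show (0 : ℝ) < 1 / 2 by norm_num)).bound
    (show (0 : ℝ) < 1 by norm_num)
  have h2 := tendsto_natCast_atTop_atTop.eventually h1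
  have h3 : ∀ᶠ n : ℕ in atTop, |C| ≤ (n : ℝ) ^ (1 / 2 : ℝ) :=
    ((tendsto_rpow_atTop (by norm_num : (0 : ℝ) < 1 / 2)).comp
      tendsto_natCast_atTop_atTop).eventually_ge_atTop _
  filter_upwards [h2, h3, tlog.eventually_ge_atTop 1, eventually_ge_atTop 1] with t g1 g2 g3 g4
  have ht : (0 : ℝ) < t := by exact_mod_cast g4
  rw [Real.norm_of_nonneg (by positivity), Real.norm_of_nonneg (by positivity), one_mul] at g1
  have e : Real.log t ^ ((B : ℝ) + k) = Real.log t ^ B * Real.log t ^ k := by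
    rw [← Nat.cast_add, Real.rpow_natCast, pow_add]
  rw [e] at g1
  unfold EB
  rw [le_div_iff₀ (by positivity)]
  calc C * Real.log t ^ k * Real.log t ^ B ≤ |C| * (Real.log t ^ B * Real.log t ^ k) := by
        rw [mul_assoc, mul_comm (Real.log (t : ℝ) ^ k)]
        exact mul_le_mul_of_nonneg_right (le_abs_self C) (by positivity)
    _ ≤ (t : ℝ) ^ (1 / 2 : ℝ) * (t : ℝ) ^ (1 / 2 : ℝ) := by gcongr
    _ = t := by
        rw [← Real.rpow_add ht]
        norm_num

/-- `E t ≤ t / log t` -/
theorem EB_le (B : ℕ) (hB : 1 ≤ B) {t : ℕ} (ht : 1 ≤ Real.log t) : EB B t ≤ t / Real.log t := by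
  unfold EB
  apply div_le_div_of_nonneg_left (Nat.cast_nonneg t) (by linarith)
  calc Real.log t = Real.log t ^ 1 := (pow_one _).symm
    _ ≤ Real.log t ^ B := pow_le_pow_right₀ ht hB

/-- the number of primes in `(t - y, t]`, `y ≤ 2 E t` -/
theorem pnt_short (B : ℕ) (hB : 1 ≤ B) (ε : ℝ) (hε : 0 < ε) : ∀ᶠ t : ℕ in atTop, ∀ y : ℕ,
    (y : ℝ) ≤ 2 * EB B t → y ≤ t ∧
      |(pi2 (t - y) t : ℝ) - y / Real.log t| ≤ ε * (EB B t / Real.log t) := by
  have h1 := Pool.Agent.R518.Drift.pnt_unif (B + 1) (ε / 4) (by positivity)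
  filter_upwards [h1, tlog.eventually_ge_atTop (max 8 (16 / ε)), eventually_ge_atTop 4]
    with t g1 g2 g3 y hy
  have hL8 : 8 ≤ Real.log t := (le_max_left _ _).trans g2
  have hLε : 16 / ε ≤ Real.log t := (le_max_right _ _).trans g2
  set L : ℝ := Real.log t with hL
  have hL0 : 0 < L := by linarith
  have ht0 : (0 : ℝ) < t := by exact_mod_cast (by omega : 0 < t)
  have hE : EB B t ≤ t / L := EB_le B hB (by linarith)
  have hE0 : 0 < EB B t := by unfold EB; positivity
  have hyt : (y : ℝ) ≤ t / 4 := by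
    calc (y : ℝ) ≤ 2 * (t / L) := hy.trans (by gcongr)
      _ ≤ 2 * (t / 8) := by gcongr
      _ = t / 4 := by ring
  have hyt' : y ≤ t := by
    have : (y : ℝ) ≤ t := by linarith
    exact_mod_cast this
  refine ⟨hyt', ?_⟩
  set a : ℕ := t - y with ha
  have hat : a ≤ t := Nat.sub_le _ _
  have haR : (a : ℝ) = t - y := by rw [ha, Nat.cast_sub hyt']
  have ha2 : 2 ≤ a := by
    have h4 : (4 : ℝ) ≤ t := by exact_mod_cast g3
    have : (2 : ℝ) ≤ a := by rw [haR]; linarith
    exact_mod_cast this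
  have hpow : (1 : ℝ) ≤ L ^ (B + 1) := one_le_pow₀ (by linarith)
  have k1 := g1 t (by
    calc (t : ℝ) = t * 1 := (mul_one _).symm
      _ ≤ t * L ^ (B + 1) := by gcongr)
  have k2 := g1 a (by
    calc (a : ℝ) ≤ t := by exact_mod_cast hat
      _ = t * 1 := (mul_one _).symm
      _ ≤ t * L ^ (B + 1) := by gcongr)
  have hEe : (t : ℝ) / L ^ (B + 1) = EB B t / L := by
    unfold EB
    rw [← hL, pow_succ]
    field_simp
  rw [hEe] at k1 k2
  obtain ⟨l1, l2⟩ := lis_diff a t ha2 hat
  have hta : (t : ℝ) - a = y := by rw [haR]; ring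
  rw [hta, ← hL] at l1
  rw [hta] at l2
  -- comparison of log a and log t
  have hla : L - 2 * (y / t) ≤ Real.log a := by
    have h5 : (a : ℝ) = t * (1 - y / t) := by
      rw [haR]; field_simp
    have h6 : (0 : ℝ) ≤ y / t := by positivity
    have h7 : (y : ℝ) / t ≤ 1 / 4 := by
      rw [div_le_iff₀ ht0]; linarith
    have h8 : Real.log a = L + Real.log (1 - y / t) := by
      rw [h5, Real.log_mul ht0.ne' (by linarith)]
    have h9 := Real.one_sub_inv_le_log_of_pos (show 0 < 1 - (y : ℝ) / t by linarith)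
    have h10 : -(2 * ((y : ℝ) / t)) ≤ 1 - (1 - (y : ℝ) / t)⁻¹ := by
      set u : ℝ := (y : ℝ) / t with hu
      have h11 : (1 - u)⁻¹ ≤ 1 + 2 * u := by
        rw [inv_le_iff_one_le_mul₀ (by linarith)]
        nlinarith
      linarith
    rw [h8]
    linarith
  have hyt2 : (y : ℝ) / t ≤ 2 / L := by
    rw [div_le_div_iff₀ ht0 hL0]
    have : (y : ℝ) ≤ 2 * (t / L) := hy.trans (by gcongr)
    calc (y : ℝ) * L ≤ 2 * (t / L) * L := by gcongr
      _ = 2 * t := by field_simp
  have h2L : 2 * ((y : ℝ) / t) ≤ 1 := by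
    have : (2 : ℝ) / L ≤ 2 / 8 := by gcongr
    linarith
  have hla1 : L - 1 ≤ Real.log a := by linarith
  have hla0 : 0 < Real.log a := by linarith
  have l3 : (y : ℝ) / Real.log a ≤ y / L + ε / 4 * (EB B t / L) := by
    have h5 : (y : ℝ) / Real.log a - y / L = y * (L - Real.log a) / (Real.log a * L) := by
      field_simp
    have h6 : (y : ℝ) * (L - Real.log a) / (Real.log a * L) ≤ ε / 4 * (EB B t / L) := by
      rw [div_le_iff₀ (by positivity)]
      have h7 : ε / 4 * (EB B t / L) * (Real.log a * L) = ε / 4 * EB B t * Real.log a := by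
        field_simp
      rw [h7]
      have h8 : L - Real.log a ≤ 1 := by linarith
      have h8' : 0 ≤ L - Real.log a := by
        have : Real.log a ≤ L := Real.log_le_log (by exact_mod_cast (by omega : 0 < a))
          (by exact_mod_cast hat)
        linarith
      have h9 : 2 ≤ ε / 4 * Real.log a := by
        rw [div_le_iff₀ hε] at hLε
        nlinarith
      calc (y : ℝ) * (L - Real.log a) ≤ 2 * EB B t * 1 := by gcongr
        _ = 2 * EB B t := by ring
        _ ≤ ε / 4 * Real.log a * EB B t := by gcongr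
        _ = _ := by ring
    linarith
  rw [pi2_eq a t hat]
  have k1' := abs_le.1 k1
  have k2' := abs_le.1 k2
  rw [abs_le]
  have hEL : 0 < EB B t / L := by positivity
  constructor <;> nlinarith

/-- `p / (log p) ^ B` near `t` -/
theorem EB_near (B : ℕ) (ε : ℝ) (hε : 0 < ε) (hε1 : ε ≤ 1) : ∀ᶠ t : ℕ in atTop, ∀ p : ℕ,
    ((t : ℝ) * (1 - 3 / Real.log t) ≤ p → (1 - ε) * EB B t ≤ EB B p ∨ 2 * t < p) ∧
    ((t : ℝ) ≤ 4 * p → p ≤ t → EB B p ≤ (1 + ε) * EB B t) ∧
    ((p : ℝ) ≤ t * (1 + 3 / Real.log t) → t ≤ p → EB B p ≤ (1 + ε) * EB B t) := by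
  -- choice of ε'
  obtain ⟨e, he, he1, he2, he3⟩ : ∃ e : ℝ, 0 < e ∧ e ≤ 1 / 2 ∧ (1 - ε) * (1 + e) ^ B ≤ 1 - e ∧
      1 + e ≤ (1 + ε) * (1 - e) ^ B := by
    have c1 : ContinuousAt (fun e : ℝ => (1 - e) - (1 - ε) * (1 + e) ^ B) 0 := by fun_prop
    have c2 : ContinuousAt (fun e : ℝ => (1 + ε) * (1 - e) ^ B - (1 + e)) 0 := by fun_prop
    have d1 : ∀ᶠ e in 𝓝 (0 : ℝ), 0 < (1 - e) - (1 - ε) * (1 + e) ^ B := by
      apply c1.eventually_const_lt
      simp [hε]
    have d2 : ∀ᶠ e in 𝓝 (0 : ℝ), 0 < (1 + ε) * (1 - e) ^ B - (1 + e) := by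
      apply c2.eventually_const_lt
      simp [hε]
    obtain ⟨δ, hδ, h3⟩ := Metric.eventually_nhds_iff.1 (d1.and d2)
    refine ⟨min (δ / 2) (1 / 2), by positivity, min_le_right _ _, ?_⟩
    have h4 := h3 (y := min (δ / 2) (1 / 2)) (by
      rw [Real.dist_eq, sub_zero, abs_of_pos (by positivity)]
      exact lt_of_le_of_lt (min_le_left _ _) (by linarith))
    constructor <;> linarith [h4.1, h4.2]
  filter_upwards [tlog.eventually_ge_atTop (max 8 (4 / e)), eventually_ge_atTop 1] with t g1 g2 p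
  have hL8 : 8 ≤ Real.log t := (le_max_left _ _).trans g1
  have hLe : 4 / e ≤ Real.log t := (le_max_right _ _).trans g1
  set L : ℝ := Real.log t with hL
  have hL0 : 0 < L := by linarith
  have ht0 : (0 : ℝ) < t := by exact_mod_cast g2
  have h3L : 3 / L ≤ e := by
    rw [div_le_iff₀ he] at hLe
    rw [div_le_iff₀ hL0]
    linarith
  have h3L' : 3 / L ≤ 3 / 8 := by gcongr
  have he4 : 4 ≤ e * L := by
    rw [div_le_iff₀ he] at hLe
    linarith
  have hE0 : 0 < EB B t := by unfold EB; positivity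
  have hlog4 : Real.log 4 ≤ 2 := by
    rw [show (4 : ℝ) = 2 ^ 2 by norm_num, Real.log_pow]
    have := Real.log_two_lt_d9
    push_cast; linarith
  refine ⟨?_, ?_, ?_⟩
  · intro h
    by_cases h2 : 2 * t < p
    · exact Or.inr h2
    · left
      have hp2 : (p : ℝ) ≤ 4 * t := by
        have : (p : ℝ) ≤ 2 * t := by exact_mod_cast (by omega : p ≤ 2 * t)
        linarith
      have hp0 : (0 : ℝ) < p := by
        refine lt_of_lt_of_le ?_ h
        apply mul_pos ht0
        linarith
      have hlp : Real.log p ≤ (1 + e) * L := by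
        have := Real.log_le_log hp0 hp2
        rw [Real.log_mul (by norm_num) ht0.ne'] at this
        linarith
      have hlp0 : 0 < Real.log p := by
        have h5 : (t : ℝ) / 4 ≤ p := by nlinarith
        have := Real.log_le_log (by positivity) h5
        rw [Real.log_div ht0.ne' (by norm_num)] at this
        linarith
      have hp1 : t * (1 - e) ≤ p := by
        refine le_trans ?_ h
        gcongr
      unfold EB
      rw [mul_div_assoc', div_le_div_iff₀ (by positivity) (by positivity)]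
      calc (1 - ε) * t * Real.log p ^ B ≤ (1 - ε) * t * ((1 + e) * L) ^ B := by
            apply mul_le_mul_of_nonneg_left _ (by
              apply mul_nonneg _ ht0.le
              linarith)
            gcongr
        _ = (1 - ε) * (1 + e) ^ B * (t * L ^ B) := by rw [mul_pow]; ring
        _ ≤ (1 - e) * (t * L ^ B) := by gcongr
        _ = t * (1 - e) * L ^ B := by ring
        _ ≤ p * L ^ B := by gcongr
  · intro h h2
    have hp2 : (p : ℝ) ≤ t := by exact_mod_cast h2
    have hp0 : (0 : ℝ) < p := by linarith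
    have hlp : (1 - e) * L ≤ Real.log p := by
      have h5 : (t : ℝ) / 4 ≤ p := by linarith
      have := Real.log_le_log (by positivity) h5
      rw [Real.log_div ht0.ne' (by norm_num)] at this
      linarith
    have h1e : 0 < (1 - e) * L := by
      apply mul_pos _ hL0
      linarith
    have hlp0 : 0 < Real.log p := h1e.trans_le hlp
    unfold EB
    rw [mul_div_assoc', div_le_div_iff₀ (by positivity) (by positivity)]
    calc (p : ℝ) * L ^ B ≤ t * L ^ B := by gcongr
      _ = 1 * (t * L ^ B) := by ring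
      _ ≤ (1 + e) * (t * L ^ B) := by
          apply mul_le_mul_of_nonneg_right _ (by positivity)
          linarith
      _ ≤ (1 + ε) * (1 - e) ^ B * (t * L ^ B) := by gcongr
      _ = (1 + ε) * t * ((1 - e) * L) ^ B := by rw [mul_pow]; ring
      _ ≤ (1 + ε) * t * Real.log p ^ B := by gcongr
  · intro h h2
    have hp2 : (t : ℝ) ≤ p := by exact_mod_cast h2
    have hlp : L ≤ Real.log p := Real.log_le_log ht0 hp2
    have hlp1 : (1 - e) * L ≤ Real.log p := by nlinarith
    have h1e : 0 < (1 - e) * L := by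
      apply mul_pos _ hL0
      linarith
    have hlp0 : 0 < Real.log p := h1e.trans_le hlp1
    have hp1 : (p : ℝ) ≤ (1 + e) * t := by
      refine h.trans ?_
      nlinarith
    unfold EB
    rw [mul_div_assoc', div_le_div_iff₀ (by positivity) (by positivity)]
    calc (p : ℝ) * L ^ B ≤ (1 + e) * t * L ^ B := by gcongr
      _ = (1 + e) * (t * L ^ B) := by ring
      _ ≤ (1 + ε) * (1 - e) ^ B * (t * L ^ B) := by gcongr
      _ = (1 + ε) * t * ((1 - e) * L) ^ B := by rw [mul_pow]; ring
      _ ≤ (1 + ε) * t * Real.log p ^ B := by gcongr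

end Pool.Agent.U839.Disp
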