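import Mathlib
import Pool.Agent.U839.Disp.Law
import Pool.Agent.U839.Disp.Pnt

set_option autoImplicit false

/-! # Displacements up to `p / (log p) ^ B` -/

open MeasureTheory ProbabilityTheory Filter Finset Topology

namespace Pool.Agent.U839.Disp

variable {Ω : Type*} [MeasurableSpace Ω] {μ : Measure Ω} [IsProbabilityMeasure μ]

/-- the range of the displacement -/
noncomputable def DL (B : ℕ) (p : ℕ) : ℕ := ⌊EB B p⌋₊ + 1

theorem DL_ge (B p : ℕ) : EB B p ≤ DL B p := by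
  unfold DL
  push_cast
  exact (Nat.lt_floor_add_one _).le

theorem EB_nonneg (B p : ℕ) : 0 ≤ EB B p := by
  unfold EB
  have := Real.log_natCast_nonneg p
  positivity

theorem DL_le (B p : ℕ) : (DL B p : ℝ) ≤ EB B p + 1 := by
  unfold DL
  push_cast
  have := Nat.floor_le (EB_nonneg B p)
  linarith

/-- window length -/
noncomputable def Wd (c : ℝ) (t : ℕ) : ℕ := ⌊c * (Real.log t) ^ 2⌋₊

theorem card_win (c : ℝ) (t : ℕ) : (Ioc t (t + Wd c t)).card = Wd c t := by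
  rw [Nat.card_Ioc, Nat.add_sub_cancel_left]

set_option maxHeartbeats 4000000 in
theorem large_up_pt (B : ℕ) (hB : 1 ≤ B) (c : ℝ) (hc : 1 < c) {ξ : ℕ → Ω → ℕ}
    (hm : ∀ p, Measurable (ξ p)) (hind : iIndepFun ξ μ) (hL : Law μ ξ (DL B)) :
    ∀ᶠ t : ℕ in atTop, μ.real (EE ξ (Ioc t (t + Wd c t))) ≤ 1 / (t : ℝ) ^ (1 + (c - 1) / 4) := by
  set ε : ℝ := min (1 / 20) ((c - 1) / (14 * c)) with hεd
  have hε : 0 < ε := lt_min (by norm_num) (div_pos (by linarith) (by linarith))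
  have hε20 : ε ≤ 1 / 20 := min_le_left _ _
  have hε2 : c * (7 * ε) ≤ (c - 1) / 2 := by
    have h1 : ε ≤ (c - 1) / (14 * c) := min_le_right _ _
    calc c * (7 * ε) ≤ c * (7 * ((c - 1) / (14 * c))) := by gcongr
      _ = (c - 1) / 2 := by field_simp; ring
  set δ : ℝ := (c - 1) / 4 with hδ
  have hδ0 : 0 < δ := by rw [hδ]; linarith
  filter_upwards [pnt_short B hB ε hε, EB_near B ε hε (by linarith), EB_large B (c / (2 * ε)) 2,
    EB_large B (1 / ε) 0, tlog.eventually_ge_atTop 8, tlog.eventually_ge_atTop (1 / δ),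
    eventually_ge_atTop 1] with t g1 g2 g3 g4 g5 g6 g7
  set L : ℝ := Real.log t with hLd
  have hL0 : 0 < L := by linarith
  have ht0 : (0 : ℝ) < t := by exact_mod_cast g7
  set E : ℝ := EB B t with hE
  rw [pow_zero, mul_one] at g4
  have hE1 : 1 ≤ ε * E := by
    rw [div_le_iff₀ hε] at g4
    linarith
  have hE0 : 0 < E := by
    by_contra hcon
    push Not at hcon
    have := mul_nonpos_of_nonneg_of_nonpos hε.le hcon
    linarith
  set W : ℕ := Wd c t with hW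
  have hWle : (W : ℝ) ≤ c * L ^ 2 := Nat.floor_le (by positivity)
  have hWge : c * L ^ 2 - 1 ≤ W := (Nat.sub_one_lt_floor _).le
  have hWE : (W : ℝ) ≤ 2 * ε * E := by
    refine hWle.trans ?_
    have : c / (2 * ε) * L ^ 2 * (2 * ε) ≤ E * (2 * ε) := by gcongr
    calc c * L ^ 2 = c / (2 * ε) * L ^ 2 * (2 * ε) := by field_simp
      _ ≤ _ := this
      _ = _ := by ring
  set y : ℕ := ⌊(1 - 3 * ε) * E⌋₊ with hy
  have hyle : (y : ℝ) ≤ (1 - 3 * ε) * E := Nat.floor_le (by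
    apply mul_nonneg _ hE0.le
    linarith)
  have hyge : (1 - 3 * ε) * E - 1 ≤ y := (Nat.sub_one_lt_floor _).le
  have hyE : (y : ℝ) ≤ E := by nlinarith
  obtain ⟨hyt, hpnt⟩ := g1 y (by linarith)
  have hEt : E ≤ t / L := EB_le B hB (by linarith)
  set T : Finset ℕ := (Ioc (t - y) t).filter Nat.Prime with hT
  have hTmem : ∀ p ∈ T, t < p + y ∧ p ≤ t ∧ p.Prime := by
    intro p hp
    rw [hT, Finset.mem_filter, Finset.mem_Ioc] at hp
    exact ⟨by omega, hp.1.2, hp.2⟩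
  have hDlo : ∀ p ∈ T, (1 - ε) * E ≤ DL B p := by
    intro p hp
    obtain ⟨h1, h2, h3⟩ := hTmem p hp
    have h1' : (t : ℝ) < p + y := by exact_mod_cast h1
    rcases (g2 p).1 (by
      have h4 : (t : ℝ) * (1 - 3 / L) = t - 3 * (t / L) := by ring
      rw [h4]
      have : 0 < t / L := by positivity
      linarith) with h5 | h5
    · exact h5.trans (DL_ge B p)
    · omega
  have hDup : ∀ p ∈ T, (DL B p : ℝ) ≤ (1 + 2 * ε) * E := by
    intro p hp
    obtain ⟨h1, h2, h3⟩ := hTmem p hp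
    have h1' : (t : ℝ) < p + y := by exact_mod_cast h1
    have h5 := (g2 p).2.1 (by
      have h6 : t / L ≤ t / 8 := by gcongr
      linarith) h2
    have := DL_le B p
    linarith
  have hb : ∀ p ∈ T, (W : ℝ) / ((1 + 2 * ε) * E) ≤ μ.real (HH ξ (Ioc t (t + W)) p) := by
    intro p hp
    obtain ⟨h1, h2, h3⟩ := hTmem p hp
    rw [HH_eq hm hL _ h3, card_win]
    · apply div_le_div_of_nonneg_left (Nat.cast_nonneg W) _ (hDup p hp)
      have := hDlo p hp
      have : 0 < (1 - ε) * E := mul_pos (by linarith) hE0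
      linarith
    · intro i hi
      rw [Finset.mem_Ioc] at hi
      refine ⟨by omega, ?_⟩
      have h4 := hDlo p hp
      have h5 : (y : ℝ) + W ≤ DL B p := by linarith
      have h6 : y + W ≤ DL B p := by exact_mod_cast h5
      omega
  refine (EE_upper hm hind _ T _ (fun p hp => (hTmem p hp).2.2) hb).trans ?_
  have e1 : 1 / (t : ℝ) ^ (1 + δ) = Real.exp (-((1 + δ) * L)) := by
    rw [Real.rpow_def_of_pos ht0, one_div, ← Real.exp_neg]
    congr 1
    ring
  rw [e1]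
  apply Real.exp_le_exp.2
  rw [neg_le_neg_iff]
  have hTc : (1 - 5 * ε) * E / L ≤ T.card := by
    have h1 := (abs_le.1 hpnt).1
    have h2 : (pi2 (t - y) t : ℝ) = T.card := rfl
    rw [h2] at h1
    have h3 : ((1 - 3 * ε) * E - 1) / L ≤ y / L := by gcongr
    have h4 : (1 - 5 * ε) * E / L ≤ ((1 - 3 * ε) * E - 1) / L - ε * (E / L) := by
      have : ((1 - 3 * ε) * E - 1) / L - ε * (E / L) = ((1 - 3 * ε) * E - 1 - ε * E) / L := by
        field_simp
      rw [this]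
      gcongr
      linarith
    linarith
  have h1 : (1 + 2 * δ) * L - 1 / L ≤ W * (1 - 7 * ε) / L := by
    have h2 : (c * L ^ 2 - 1) * (1 - 7 * ε) ≤ W * (1 - 7 * ε) := by
      apply mul_le_mul_of_nonneg_right hWge
      linarith
    have h3 : (1 + 2 * δ) * L ^ 2 - 1 ≤ (c * L ^ 2 - 1) * (1 - 7 * ε) := by
      have h4 : 1 + 2 * δ ≤ c * (1 - 7 * ε) := by
        rw [hδ]
        linarith
      have h5 : (1 + 2 * δ) * L ^ 2 ≤ c * (1 - 7 * ε) * L ^ 2 := by gcongr
      nlinarith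
    rw [le_div_iff₀ hL0]
    have h6 : ((1 + 2 * δ) * L - 1 / L) * L = (1 + 2 * δ) * L ^ 2 - 1 := by
      field_simp
    rw [h6]
    linarith
  have h7 : (W : ℝ) * (1 - 7 * ε) / L ≤ W / ((1 + 2 * ε) * E) * ((1 - 5 * ε) * E / L) := by
    have h8 : (W : ℝ) / ((1 + 2 * ε) * E) * ((1 - 5 * ε) * E / L) =
        W * ((1 - 5 * ε) / (1 + 2 * ε)) / L := by
      field_simp
    rw [h8]
    have h9 : 1 - 7 * ε ≤ (1 - 5 * ε) / (1 + 2 * ε) := by
      rw [le_div_iff₀ (by linarith)]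
      nlinarith
    gcongr
  have h10 : (W : ℝ) / ((1 + 2 * ε) * E) * ((1 - 5 * ε) * E / L) ≤
      W / ((1 + 2 * ε) * E) * T.card := by gcongr
  have h11 : 1 / L ≤ δ * L := by
    rw [div_le_iff₀ hδ0] at g6
    rw [div_le_iff₀ hL0]
    nlinarith
  linarith

theorem large_up (B : ℕ) (hB : 1 ≤ B) (c : ℝ) (hc : 1 < c) {ξ : ℕ → Ω → ℕ}
    (hm : ∀ p, Measurable (ξ p)) (hind : iIndepFun ξ μ) (hL : Law μ ξ (DL B)) :
    ∀ᵐ ω ∂μ, ∀ᶠ t : ℕ in atTop, ω ∉ EE ξ (Ioc t (t + Wd c t)) := by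
  obtain ⟨n₀, hn₀⟩ := eventually_atTop.1 (large_up_pt B hB c hc hm hind hL)
  set bad' : ℕ → Set Ω := fun t => if n₀ ≤ t then EE ξ (Ioc t (t + Wd c t)) else ∅ with hbad'
  have hsum : Summable (fun n : ℕ => 1 / (n : ℝ) ^ (1 + (c - 1) / 4)) :=
    Real.summable_one_div_nat_rpow.2 (by linarith)
  have htot : ∑' n, μ (bad' n) ≠ ⊤ := by
    have h5 : ∀ n, μ (bad' n) ≤ ENNReal.ofReal (1 / (n : ℝ) ^ (1 + (c - 1) / 4)) := by
      intro n
      rw [hbad']
      simp only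
      split_ifs with hn
      · rw [← ENNReal.ofReal_toReal (measure_ne_top μ (EE ξ (Ioc n (n + Wd c n))))]
        exact ENNReal.ofReal_le_ofReal (hn₀ n hn)
      · simp
    exact ne_top_of_le_ne_top hsum.tsum_ofReal_ne_top (ENNReal.tsum_le_tsum h5)
  filter_upwards [ae_eventually_notMem htot] with ω hω
  filter_upwards [hω, eventually_ge_atTop n₀] with n hn hnn
  rw [hbad'] at hn
  simp only [if_pos hnn] at hn
  exact hn

end Pool.Agent.U839.Disp
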