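import Mathlib
import Pool.Agent.U839.Disp.Large

set_option autoImplicit false

/-! # Displacements up to `p / (log p) ^ B`: empty windows -/

open MeasureTheory ProbabilityTheory Filter Finset Topology

namespace Pool.Agent.U839.Disp

variable {Ω : Type*} [MeasurableSpace Ω] {μ : Measure Ω} [IsProbabilityMeasure μ]

set_option maxHeartbeats 4000000 in
theorem large_low_pt (B : ℕ) (hB : 1 ≤ B) (c : ℝ) (hc0 : 0 < c) (hc : c < 1) {ξ : ℕ → Ω → ℕ}
    (hm : ∀ p, Measurable (ξ p)) (hind : iIndepFun ξ μ) (hL : Law μ ξ (DL B)) :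
    ∀ᶠ t : ℕ in atTop, Real.exp (-((1 + c) / 2 * Real.log t)) ≤ μ.real (EE ξ (Ioc t (t + Wd c t))) := by
  set ε : ℝ := min (1 / 20) ((1 - c) / (18 * c)) with hεd
  have hε : 0 < ε := lt_min (by norm_num) (div_pos (by linarith) (by linarith))
  have hε20 : ε ≤ 1 / 20 := min_le_left _ _
  have hε2 : c * (9 * ε) ≤ (1 - c) / 2 := by
    have h1 : ε ≤ (1 - c) / (18 * c) := min_le_right _ _
    calc c * (9 * ε) ≤ c * (9 * ((1 - c) / (18 * c))) := by gcongr
      _ = (1 - c) / 2 := by field_simp; ring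
  filter_upwards [pnt_short B hB ε hε, EB_near B ε hε (by linarith), EB_large B ((c + 1) / ε) 3,
    EB_large B (4 / ε) 0, tlog.eventually_ge_atTop 8, EB_large B (4 * c / ε) 2,
    eventually_ge_atTop (max 4 (2 + DL B 2))] with t g1 g2 g3 g4 g5 g6 g7
  set L : ℝ := Real.log t with hLd
  have hL0 : 0 < L := by linarith
  have ht4 : 4 ≤ t := (le_max_left _ _).trans g7
  have ht2 : 2 + DL B 2 ≤ t := (le_max_right _ _).trans g7
  have ht0 : (0 : ℝ) < t := by exact_mod_cast (by omega : 0 < t)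
  set E : ℝ := EB B t with hE
  rw [pow_zero, mul_one] at g4
  have hE1 : 4 ≤ ε * E := by
    rw [div_le_iff₀ hε] at g4
    linarith
  have hE0 : 0 < E := by
    by_contra hcon
    push Not at hcon
    have := mul_nonpos_of_nonneg_of_nonpos hε.le hcon
    linarith
  set W : ℕ := Wd c t with hW
  have hWle : (W : ℝ) ≤ c * L ^ 2 := Nat.floor_le (by positivity)
  have hWE : 4 * (W : ℝ) ≤ ε * E := by
    have : 4 * c / ε * L ^ 2 * ε ≤ E * ε := by gcongr
    calc 4 * (W : ℝ) ≤ 4 * (c * L ^ 2) := by linarith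
      _ = 4 * c / ε * L ^ 2 * ε := by field_simp
      _ ≤ _ := this
      _ = _ := by ring
  have hWE3 : (W : ℝ) * L + L ≤ ε * E := by
    have h0 : (c + 1) / ε * L ^ 3 * ε ≤ E * ε := by gcongr
    have h1 : L ≤ L ^ 3 := by
      calc L = L * 1 := by ring
        _ ≤ L * L ^ 2 := by
            gcongr
            nlinarith
        _ = L ^ 3 := by ring
    calc (W : ℝ) * L + L ≤ c * L ^ 2 * L + L ^ 3 := by
          have := mul_le_mul_of_nonneg_right hWle hL0.le
          linarith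
      _ = (c + 1) / ε * L ^ 3 * ε := by field_simp
      _ ≤ _ := h0
      _ = _ := by ring
  set y : ℕ := ⌊(1 + 2 * ε) * E⌋₊ + 1 with hy
  have hyle : (y : ℝ) ≤ (1 + 2 * ε) * E + 1 := by
    rw [hy]
    push_cast
    have := Nat.floor_le (show 0 ≤ (1 + 2 * ε) * E by positivity)
    linarith
  have hyge : (1 + 2 * ε) * E ≤ y := by
    rw [hy]
    push_cast
    exact (Nat.lt_floor_add_one _).le
  have hy2E : (y : ℝ) ≤ 2 * E := by nlinarith
  obtain ⟨hyt, hpnt⟩ := g1 y hy2E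
  have hEt : E ≤ t / L := EB_le B hB (by linarith)
  set T : Finset ℕ := (Ioc (t - y) (t + W)).filter Nat.Prime with hT
  have hTmem : ∀ p ∈ T, t < p + y ∧ p ≤ t + W ∧ p.Prime := by
    intro p hp
    rw [hT, Finset.mem_filter, Finset.mem_Ioc] at hp
    exact ⟨by omega, hp.1.2, hp.2⟩
  have hDlo : ∀ p ∈ T, (1 - ε) * E ≤ DL B p := by
    intro p hp
    obtain ⟨h1, h2, h3⟩ := hTmem p hp
    have h1' : (t : ℝ) < p + y := by exact_mod_cast h1
    rcases (g2 p).1 (by
      have h4 : (t : ℝ) * (1 - 3 / L) = t - 3 * (t / L) := by ring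
      rw [h4]
      have : 0 < t / L := by positivity
      linarith) with h5 | h5
    · exact h5.trans (DL_ge B p)
    · exfalso
      have h6 : (W : ℝ) < t := by
        have h7 : t / L ≤ t / 8 := by gcongr
        nlinarith
      have h8 : W < t := by exact_mod_cast h6
      omega
  have hE1ε : 0 < (1 - ε) * E := mul_pos (by linarith) hE0
  set b : ℝ := (W : ℝ) / ((1 - ε) * E) with hb
  have hb0 : 0 ≤ b := by positivity
  have hb2 : 2 * b ≤ ε := by
    rw [hb, mul_div_assoc', div_le_iff₀ hE1ε]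
    nlinarith
  have hlow := EE_lower hm hind (Ioc t (t + W)) T b hb0 (by linarith) (by
    intro p hp hpT
    apply HH_zero hm hL _ hp
    intro i hi
    rw [Finset.mem_Ioc] at hi
    rw [hT, Finset.mem_filter, Finset.mem_Ioc, not_and_or] at hpT
    have hpT' : ¬(t - y < p ∧ p ≤ t + W) := by
      rcases hpT with h | h
      · exact h
      · exact absurd hp h
    by_cases hpW : t + W < p
    · left; omega
    · right
      have hpy : p ≤ t - y := by omega
      have hpy' : p + y ≤ t := by omega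
      have hpyR : (p : ℝ) + y ≤ t := by exact_mod_cast hpy'
      suffices h : p + DL B p ≤ t by omega
      by_cases h4 : (t : ℝ) ≤ 4 * p
      · have h5 := (g2 p).2.1 h4 (by omega)
        have h6 := DL_le B p
        have h7 : (p : ℝ) + DL B p ≤ t := by linarith
        exact_mod_cast h7
      · push Not at h4
        rcases eq_or_lt_of_le hp.two_le with h2 | h2
        · rw [← h2]; exact ht2
        · have hp3 : (3 : ℝ) ≤ p := by exact_mod_cast h2
          have hlp : 1 ≤ Real.log p := by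
            rw [Real.le_log_iff_exp_le (by linarith)]
            have := Real.exp_one_lt_d9
            linarith
          have h5 : EB B p ≤ p := by
            unfold EB
            apply div_le_self (by linarith)
            exact one_le_pow₀ hlp
          have h6 := DL_le B p
          have ht4' : (4 : ℝ) ≤ t := by exact_mod_cast ht4
          have h7 : (p : ℝ) + DL B p ≤ t := by linarith
          exact_mod_cast h7) (by
    intro p hp hpp
    have h1 := HH_le (μ := μ) hm hL (Ioc t (t + W)) hpp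
    rw [card_win] at h1
    refine h1.trans ?_
    exact div_le_div_of_nonneg_left (Nat.cast_nonneg W) hE1ε (hDlo p hp))
  refine le_trans ?_ hlow
  apply Real.exp_le_exp.2
  rw [neg_le_neg_iff]
  have hTc : (T.card : ℝ) ≤ (1 + 5 * ε) * E / L := by
    have h1 : T.card ≤ pi2 (t - y) t + W := by
      have h2 : T ⊆ ((Ioc (t - y) t).filter Nat.Prime) ∪ Ioc t (t + W) := by
        intro p hp
        rw [hT, Finset.mem_filter, Finset.mem_Ioc] at hp
        rw [Finset.mem_union, Finset.mem_filter, Finset.mem_Ioc, Finset.mem_Ioc]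
        by_cases h : p ≤ t
        · exact Or.inl ⟨⟨hp.1.1, h⟩, hp.2⟩
        · exact Or.inr ⟨by omega, hp.1.2⟩
      refine (Finset.card_le_card h2).trans ((Finset.card_union_le _ _).trans ?_)
      rw [card_win]
      exact le_rfl
    have h1' : (T.card : ℝ) ≤ pi2 (t - y) t + W := by exact_mod_cast h1
    have h2 := (abs_le.1 hpnt).2
    have h3 : (y : ℝ) / L ≤ ((1 + 2 * ε) * E + 1) / L := by gcongr
    have h4 : ((1 + 2 * ε) * E + 1) / L + ε * (E / L) + W ≤ (1 + 5 * ε) * E / L := by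
      rw [le_div_iff₀ hL0]
      have : (((1 + 2 * ε) * E + 1) / L + ε * (E / L) + W) * L =
          (1 + 2 * ε) * E + 1 + ε * E + W * L := by
        field_simp
      rw [this]
      linarith
    linarith
  have hWL : b * ((1 + 5 * ε) * E / L) = W * ((1 + 5 * ε) / (1 - ε)) / L := by
    rw [hb]
    have : (1 - ε) ≠ 0 := by linarith
    field_simp
  calc (b + 2 * b ^ 2) * T.card ≤ (b * (1 + ε)) * ((1 + 5 * ε) * E / L) := by
        apply mul_le_mul _ hTc (Nat.cast_nonneg _) (by positivity)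
        nlinarith
    _ = (1 + ε) * (b * ((1 + 5 * ε) * E / L)) := by ring
    _ = (1 + ε) * (W * ((1 + 5 * ε) / (1 - ε)) / L) := by rw [hWL]
    _ = ((1 + ε) * (1 + 5 * ε) / (1 - ε)) * (W / L) := by ring
    _ ≤ (1 + 9 * ε) * (c * L) := by
        apply mul_le_mul
        · rw [div_le_iff₀ (by linarith)]
          nlinarith
        · rw [div_le_iff₀ hL0]
          linarith
        · positivity
        · positivity
    _ ≤ (1 + c) / 2 * L := by nlinarith

/-- arithmetic for the windows of a dyadic block -/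
theorem ev_block (c θ : ℝ) (hc : 0 < c) (hθ0 : 0 < θ) (hθ1 : θ < 1) : ∀ᶠ j : ℕ in atTop,
    (2 : ℝ) ^ ((1 - θ) / 2 * j) ≤
      ((2 : ℝ) ^ j / (c * (Real.log (2 ^ (j + 1) : ℕ)) ^ 2 + 1) - 1) *
        Real.exp (-(θ * Real.log (2 ^ (j + 1) : ℕ))) := by
  have hl2 : 0 < Real.log 2 := Real.log_pos (by norm_num)
  have hlog : ∀ j : ℕ, Real.log ((2 ^ (j + 1) : ℕ) : ℝ) = (j + 1) * Real.log 2 := by
    intro j
    push_cast
    rw [Real.log_pow]
    push_cast
    ring
  set β : ℝ := (1 - θ) / 4 with hβ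
  have hβ0 : 0 < β := by rw [hβ]; linarith
  -- polynomial versus exponential
  have h1 : ∀ᶠ j : ℕ in atTop, 4 * (c * ((j + 1) * Real.log 2) ^ 2 + 1) * 2 ^ |θ| ≤
      (2 : ℝ) ^ (β * j) := by
    have h2 : Tendsto (fun j : ℕ => ((j : ℝ) + 1) ^ 2 * ((2 : ℝ) ^ (-β)) ^ j) atTop (𝓝 0) := by
      have hr : (2 : ℝ) ^ (-β) < 1 := Real.rpow_lt_one_of_one_lt_of_neg (by norm_num) (by linarith)
      have h3 := tendsto_pow_const_mul_const_pow_of_lt_one 2 (r := (2 : ℝ) ^ (-β)) (by positivity) hr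
      have h4 := tendsto_pow_const_mul_const_pow_of_lt_one 1 (r := (2 : ℝ) ^ (-β)) (by positivity) hr
      have h5 := tendsto_pow_const_mul_const_pow_of_lt_one 0 (r := (2 : ℝ) ^ (-β)) (by positivity) hr
      have h6 := (h3.add (h4.const_mul 2)).add h5
      simp only [mul_zero, add_zero] at h6
      refine h6.congr (fun j => ?_)
      ring
    have h3 := (h2.const_mul (4 * (c * (Real.log 2) ^ 2 + 1) * 2 ^ |θ|))
    rw [mul_zero] at h3
    filter_upwards [h3.eventually_le_const (show (0 : ℝ) < 1 by norm_num)] with j hj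
    have h4 : ((2 : ℝ) ^ (-β)) ^ j * (2 : ℝ) ^ (β * j) = 1 := by
      rw [← Real.rpow_natCast, ← Real.rpow_mul (by norm_num), ← Real.rpow_add (by norm_num)]
      have : -β * (j : ℝ) + β * j = 0 := by ring
      rw [this, Real.rpow_zero]
    have hp : 0 < (2 : ℝ) ^ (β * j) := by positivity
    have hj0 : (0 : ℝ) ≤ j := Nat.cast_nonneg j
    calc 4 * (c * ((j + 1) * Real.log 2) ^ 2 + 1) * 2 ^ |θ| ≤
        4 * (c * ((j + 1) * Real.log 2) ^ 2 + ((j : ℝ) + 1) ^ 2) * 2 ^ |θ| := by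
          gcongr
          nlinarith
      _ = 4 * (c * (Real.log 2) ^ 2 + 1) * 2 ^ |θ| * ((j : ℝ) + 1) ^ 2 * 1 := by ring
      _ = 4 * (c * (Real.log 2) ^ 2 + 1) * 2 ^ |θ| * (((j : ℝ) + 1) ^ 2 * ((2 : ℝ) ^ (-β)) ^ j) *
          (2 : ℝ) ^ (β * j) := by rw [← h4]; ring
      _ ≤ 1 * (2 : ℝ) ^ (β * j) := by gcongr
      _ = _ := one_mul _
  filter_upwards [h1, eventually_ge_atTop 1] with j hj hj1
  rw [hlog]
  set P : ℝ := c * ((j + 1) * Real.log 2) ^ 2 + 1 with hP
  have hP0 : 1 ≤ P := by rw [hP]; nlinarith [mul_nonneg hc.le (sq_nonneg (((j : ℝ) + 1) * Real.log 2))]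
  have h2θ : (1 : ℝ) ≤ 2 ^ |θ| := Real.one_le_rpow (by norm_num) (abs_nonneg θ)
  have e1 : Real.exp (-(θ * ((j + 1) * Real.log 2))) = (2 : ℝ) ^ (-θ * (j + 1)) := by
    rw [Real.rpow_def_of_pos (by norm_num)]
    congr 1
    ring
  rw [e1]
  have hX : (2 : ℝ) ^ j = (2 : ℝ) ^ (j : ℝ) := (Real.rpow_natCast _ _).symm
  have h3 : (2 : ℝ) ^ ((1 - β) * j) * 4 * 2 ^ |θ| ≤ (2 : ℝ) ^ j / P := by
    rw [le_div_iff₀ (by linarith)]
    calc (2 : ℝ) ^ ((1 - β) * j) * 4 * 2 ^ |θ| * P = (2 : ℝ) ^ ((1 - β) * j) * (4 * P * 2 ^ |θ|) := by ring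
      _ ≤ (2 : ℝ) ^ ((1 - β) * j) * (2 : ℝ) ^ (β * j) := by gcongr
      _ = (2 : ℝ) ^ j := by
          rw [← Real.rpow_add (by norm_num), hX]
          congr 1
          ring
  have hj0 : (0 : ℝ) ≤ j := Nat.cast_nonneg j
  have hβ1 : β ≤ 1 := by rw [hβ]; linarith
  have h7 : (1 : ℝ) ≤ (2 : ℝ) ^ ((1 - β) * j) :=
    Real.one_le_rpow (by norm_num) (mul_nonneg (by linarith) hj0)
  have h5 : (2 : ℝ) ^ (-θ * (j + 1)) = (2 : ℝ) ^ (-θ * j) * (2 : ℝ) ^ (-θ) := by
    rw [← Real.rpow_add (by norm_num)]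
    congr 1
    ring
  have h6 : (1 : ℝ) ≤ (2 : ℝ) ^ (-θ) * 2 ^ |θ| := by
    rw [← Real.rpow_add (by norm_num)]
    apply Real.one_le_rpow (by norm_num)
    have := le_abs_self θ
    linarith
  have h8 : (1 : ℝ) ≤ (2 : ℝ) ^ ((1 - β) * j) * 2 ^ |θ| := by
    calc (1 : ℝ) = 1 * 1 := by ring
      _ ≤ _ := by gcongr
  have h9 : (2 : ℝ) ^ ((1 - β) * j) * 2 ^ |θ| ≤ (2 : ℝ) ^ j / P - 1 := by linarith
  calc (2 : ℝ) ^ ((1 - θ) / 2 * j) ≤ (2 : ℝ) ^ ((1 - β) * j + -θ * j) := by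
        apply Real.rpow_le_rpow_of_exponent_le (by norm_num)
        have : (1 - β) * j + -θ * j = (1 - θ) / 2 * j + (1 - θ) / 4 * j := by rw [hβ]; ring
        rw [this]
        have : 0 ≤ (1 - θ) / 4 * (j : ℝ) := mul_nonneg (by linarith) hj0
        linarith
    _ = (2 : ℝ) ^ ((1 - β) * j) * (2 : ℝ) ^ (-θ * j) * 1 := by
        rw [Real.rpow_add (by norm_num), mul_one]
    _ ≤ (2 : ℝ) ^ ((1 - β) * j) * (2 : ℝ) ^ (-θ * j) * ((2 : ℝ) ^ (-θ) * 2 ^ |θ|) := by gcongr
    _ = ((2 : ℝ) ^ ((1 - β) * j) * 2 ^ |θ|) * ((2 : ℝ) ^ (-θ * j) * (2 : ℝ) ^ (-θ)) := by ring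
    _ = ((2 : ℝ) ^ ((1 - β) * j) * 2 ^ |θ|) * (2 : ℝ) ^ (-θ * (j + 1)) := by rw [← h5]
    _ ≤ _ := by gcongr

theorem large_low (B : ℕ) (hB : 1 ≤ B) (c : ℝ) (hc0 : 0 < c) (hc : c < 1) {ξ : ℕ → Ω → ℕ}
    (hm : ∀ p, Measurable (ξ p)) (hind : iIndepFun ξ μ) (hL : Law μ ξ (DL B)) :
    ∀ᵐ ω ∂μ, ∀ᶠ j : ℕ in atTop, ∃ t : ℕ, 2 ^ j < t ∧ t ≤ 2 ^ (j + 1) ∧
      ω ∈ EE ξ (Ioc t (t + Wd c t)) := by
  classical
  set θ : ℝ := (1 + c) / 2 with hθ
  have hθ0 : 0 < θ := by rw [hθ]; linarith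
  have hθ1 : θ < 1 := by rw [hθ]; linarith
  have key := ae_empty hm hind ((1 - θ) / 2) (by linarith)
    (fun j I => ∃ t : ℕ, 2 ^ j < t ∧ t ≤ 2 ^ (j + 1) ∧ I = Ioc t (t + Wd c t)) ?_
  · filter_upwards [key] with ω hω
    filter_upwards [hω] with j hj
    obtain ⟨I, ⟨t, h1, h2, h3⟩, h4⟩ := hj
    exact ⟨t, h1, h2, h3 ▸ h4⟩
  · obtain ⟨t₀, ht₀⟩ := eventually_atTop.1 (large_low_pt B hB c hc0 hc hm hind hL)
    filter_upwards [ev_block c θ hc0 hθ0 hθ1, eventually_ge_atTop t₀] with j hj hjt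
    have hXj : j < 2 ^ j := Nat.lt_two_pow_self
    set M : ℕ := ⌊c * (Real.log (2 ^ (j + 1) : ℕ)) ^ 2⌋₊ + 1 with hM
    have hM0 : 0 < M := Nat.succ_pos _
    have hMR : (M : ℝ) ≤ c * (Real.log (2 ^ (j + 1) : ℕ)) ^ 2 + 1 := by
      rw [hM]
      push_cast
      have := Nat.floor_le (show 0 ≤ c * (Real.log (2 ^ (j + 1))) ^ 2 by positivity)
      linarith
    set K : ℕ := 2 ^ j / M with hK
    have hKM : K * M ≤ 2 ^ j := Nat.div_mul_le_self _ _
    set S : Finset ℕ := (Icc 1 K).image (fun i => 2 ^ j + i * M) with hS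
    have hSmem : ∀ t ∈ S, ∃ i : ℕ, 1 ≤ i ∧ i ≤ K ∧ t = 2 ^ j + i * M := by
      intro t ht
      rw [hS, Finset.mem_image] at ht
      obtain ⟨i, hi, rfl⟩ := ht
      rw [Finset.mem_Icc] at hi
      exact ⟨i, hi.1, hi.2, rfl⟩
    have hSb : ∀ t ∈ S, 2 ^ j < t ∧ t ≤ 2 ^ (j + 1) := by
      intro t ht
      obtain ⟨i, h1, h2, rfl⟩ := hSmem t ht
      have h3 : i * M ≤ K * M := Nat.mul_le_mul_right M h2
      have h4 : 1 * M ≤ i * M := Nat.mul_le_mul_right M h1
      rw [pow_succ]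
      omega
    have hWM : ∀ t ∈ S, Wd c t < M := by
      intro t ht
      rw [hM]
      apply Nat.lt_succ_of_le
      apply Nat.floor_le_floor
      have h5 : Real.log t ≤ Real.log ((2 ^ (j + 1) : ℕ) : ℝ) :=
        Real.log_le_log (by exact_mod_cast lt_of_le_of_lt (Nat.zero_le _) (hSb t ht).1)
          (by exact_mod_cast (hSb t ht).2)
      have h6 : 0 ≤ Real.log t := Real.log_natCast_nonneg t
      gcongr
    refine ⟨S, fun t => Ioc t (t + Wd c t), ?_, ?_, ?_⟩
    · intro t ht t' ht' hne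
      obtain ⟨i, h1, h2, h3⟩ := hSmem t ht
      obtain ⟨i', h1', h2', h3'⟩ := hSmem t' ht'
      have k1 := hWM t ht
      have k2 := hWM t' ht'
      rw [Finset.disjoint_left]
      intro p hp hp'
      rw [Finset.mem_Ioc] at hp hp'
      rcases lt_trichotomy i i' with h | h | h
      · have : (i + 1) * M ≤ i' * M := Nat.mul_le_mul_right M h
        rw [add_mul, one_mul] at this
        omega
      · apply hne
        rw [h3, h3', h]
      · have : (i' + 1) * M ≤ i * M := Nat.mul_le_mul_right M h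
        rw [add_mul, one_mul] at this
        omega
    · intro t ht
      exact ⟨t, (hSb t ht).1, (hSb t ht).2, rfl⟩
    · have hterm : ∀ t ∈ S, Real.exp (-(θ * Real.log (2 ^ (j + 1) : ℕ))) ≤
          μ.real (EE ξ (Ioc t (t + Wd c t))) := by
        intro t ht
        refine le_trans ?_ (ht₀ t (by have := (hSb t ht).1; omega))
        apply Real.exp_le_exp.2
        rw [neg_le_neg_iff]
        apply mul_le_mul_of_nonneg_left _ hθ0.le
        exact Real.log_le_log (by exact_mod_cast lt_of_le_of_lt (Nat.zero_le _) (hSb t ht).1)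
          (by exact_mod_cast (hSb t ht).2)
      have hcard : S.card = K := by
        rw [hS, Finset.card_image_of_injective, Nat.card_Icc, Nat.add_sub_cancel]
        intro a b hab
        simp only at hab
        have : a * M = b * M := by omega
        exact Nat.eq_of_mul_eq_mul_right hM0 this
      have hKR : (2 : ℝ) ^ j / (c * (Real.log (2 ^ (j + 1) : ℕ)) ^ 2 + 1) - 1 ≤ K := by
        have h1 : (2 ^ j : ℕ) < M * (K + 1) := Nat.lt_mul_div_succ _ hM0
        have h2 : ((2 : ℝ) ^ j) < M * ((K : ℝ) + 1) := by exact_mod_cast h1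
        have h3 : (2 : ℝ) ^ j / (c * (Real.log (2 ^ (j + 1) : ℕ)) ^ 2 + 1) ≤ 2 ^ j / M := by
          apply div_le_div_of_nonneg_left (by positivity) (by exact_mod_cast hM0) hMR
        have h4 : (2 : ℝ) ^ j / M < K + 1 := by
          rw [div_lt_iff₀ (by exact_mod_cast hM0)]
          linarith
        linarith
      calc (2 : ℝ) ^ ((1 - θ) / 2 * j) ≤ _ := hj
        _ ≤ K * Real.exp (-(θ * Real.log (2 ^ (j + 1) : ℕ))) := by
            apply mul_le_mul_of_nonneg_right hKR (Real.exp_pos _).le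
        _ = ∑ _t ∈ S, Real.exp (-(θ * Real.log (2 ^ (j + 1) : ℕ))) := by
            rw [Finset.sum_const, nsmul_eq_mul, hcard]
        _ ≤ _ := Finset.sum_le_sum hterm

end Pool.Agent.U839.Disp
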