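import Mathlib
import Pool.Agent.U839.Disp.Large2
import Pool.Agent.N610.MS.BON
import Pool.Agent.N610.MS.LEG
import Pool.Agent.N610.MS.CNT
import Pool.Agent.N610.MS.ROWS
import Pool.Agent.N610.MS.MAIN

set_option autoImplicit false

/-! # Displacements up to `(log p) ^ A` -/

open MeasureTheory ProbabilityTheory Filter Finset Topology

namespace Pool.Agent.U839.Disp

open Pool.Agent.N610.MS in
theorem main_ms : S_MAIN := t_MAIN (t_CNT t_BON (t_LEG t_BON)) t_ROWS

set_option maxHeartbeats 4000000 in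
/-- many intervals of length `(1 + τ) (log X) ^ A` with few primes -/
theorem poor_many (A : ℝ) (hA : 0 < A) : ∃ δ : ℝ, 0 < δ ∧ δ ≤ 1 ∧ ∀ ε τ : ℝ, 0 < ε → 0 < τ →
    ∀ᶠ X : ℝ in atTop, ∃ S : Finset ℕ, (∀ n ∈ S, X < n ∧ (n : ℝ) < 3 * X ∧
      (pi2 n ⌊(n : ℝ) + (1 + τ) * (Real.log X) ^ A⌋₊ : ℝ) ≤
        (1 - δ / 2) * ((1 + τ) * (Real.log X) ^ A / Real.log n)) ∧
      X ^ (1 - ε) ≤ S.card := by
  classical
  obtain ⟨κ, hκ, h1⟩ := main_ms A 1 hA one_pos
  obtain ⟨δ, hδ, h2⟩ := h1 1 (-1) one_pos (Or.inr rfl)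
  refine ⟨min δ 1, lt_min hδ one_pos, min_le_right _ _, fun ε τ hε hτ => ?_⟩
  set δ' : ℝ := min δ 1 with hδ'
  have hδ'0 : 0 < δ' := lt_min hδ one_pos
  have hδ'1 : δ' ≤ 1 := min_le_right _ _
  have hδ'δ : δ' ≤ δ := min_le_left _ _
  have t1 : ∀ᶠ X : ℝ in atTop, 1 + τ ≤ (Real.log X) ^ κ :=
    ((tendsto_rpow_atTop hκ).comp Real.tendsto_log_atTop).eventually_ge_atTop _
  have t2 : ∀ᶠ X : ℝ in atTop, 40 / δ' ≤ X ^ (ε / 2) :=
    (tendsto_rpow_atTop (by positivity)).eventually_ge_atTop _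
  filter_upwards [h2 (ε / 2) (by positivity), t1, t2, Real.tendsto_log_atTop.eventually_ge_atTop 1,
    eventually_ge_atTop (1 : ℝ)] with X g1 g2 g3 g4 g5
  obtain ⟨W, w, w1, w2, w3, w4, w5, w6, -, -⟩ := g1
  have hX0 : 0 < X := by linarith
  set y : ℝ := (1 + τ) * (Real.log X) ^ A with hy
  have hLA : 0 < (Real.log X) ^ A := by positivity
  have hy0 : 0 < y := by positivity
  have hy1 : Real.log X ^ A ≤ y := by
    rw [hy]
    nlinarith
  have hy2 : y ≤ Real.log X ^ (A + κ) := by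
    rw [hy, Real.rpow_add (by linarith), mul_comm]
    gcongr
  have k1 := w6 y hy1 hy2
  set I : Finset ℕ := Icc 1 ⌊3 * X⌋₊ with hI
  have hR0 : ∀ n : ℕ, 0 ≤ Pool.Agent.N610.MS.R n y := by
    intro n
    unfold Pool.Agent.N610.MS.R
    apply div_nonneg
    · rw [sub_nonneg]
      exact_mod_cast Nat.monotone_primeCounting (Nat.floor_le_floor (by linarith))
    · exact div_nonneg hy0.le (Real.log_natCast_nonneg n)
  have k2 : ∑ n ∈ I, w n * Pool.Agent.N610.MS.R n y ≤ 1 - δ' := by linarith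
  set S : Finset ℕ := I.filter (fun n => w n ≠ 0 ∧ Pool.Agent.N610.MS.R n y ≤ 1 - δ' / 2) with hS
  have k3 : (1 - δ' / 2) * ∑ n ∈ I \ S, w n ≤ 1 - δ' := by
    refine le_trans ?_ k2
    rw [Finset.mul_sum]
    calc ∑ n ∈ I \ S, (1 - δ' / 2) * w n ≤ ∑ n ∈ I \ S, w n * Pool.Agent.N610.MS.R n y := by
          apply Finset.sum_le_sum
          intro n hn
          rw [Finset.mem_sdiff, hS, Finset.mem_filter] at hn
          by_cases hw : w n = 0
          · rw [hw]; simp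
          · have h5 : 1 - δ' / 2 < Pool.Agent.N610.MS.R n y := by
              by_contra hcon
              exact hn.2 ⟨hn.1, hw, not_lt.1 hcon⟩
            rw [mul_comm]
            exact mul_le_mul_of_nonneg_left h5.le (w3 n).1
      _ ≤ _ := by
          apply Finset.sum_le_sum_of_subset_of_nonneg Finset.sdiff_subset
          intro n _ _
          exact mul_nonneg (w3 n).1 (hR0 n)
  have k4 : ∑ n ∈ I \ S, w n ≤ 1 - δ' / 2 := by
    by_contra hcon
    push Not at hcon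
    have h5 : (1 - δ' / 2) * (1 - δ' / 2) ≤ (1 - δ' / 2) * ∑ n ∈ I \ S, w n :=
      mul_le_mul_of_nonneg_left hcon.le (by linarith)
    nlinarith
  have hSI : S ⊆ I := Finset.filter_subset _ _
  have k5 : δ' / 2 ≤ ∑ n ∈ S, w n := by
    have := Finset.sum_sdiff (f := w) hSI
    rw [w5] at this
    linarith
  have k6 : ∑ n ∈ S, w n ≤ S.card * (20 * W / X) := by
    calc ∑ n ∈ S, w n ≤ ∑ _n ∈ S, 20 * (W : ℝ) / X := Finset.sum_le_sum fun n _ => (w3 n).2
      _ = _ := by rw [Finset.sum_const, nsmul_eq_mul]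
  refine ⟨S, ?_, ?_⟩
  · intro n hn
    rw [hS, Finset.mem_filter] at hn
    obtain ⟨m1, m2, m3⟩ := hn
    obtain ⟨l1, l2, -⟩ := w4 n m2
    refine ⟨l1, l2, ?_⟩
    have hn1 : (1 : ℝ) < n := by linarith
    have hln : 0 < Real.log n := Real.log_pos hn1
    unfold Pool.Agent.N610.MS.R at m3
    rw [div_le_iff₀ (by positivity)] at m3
    rw [pi2_eq _ _ (Nat.le_floor (by linarith))]
    rw [Nat.floor_natCast] at m3
    exact m3
  · have h5 : δ' / 2 ≤ S.card * (20 * W / X) := k5.trans k6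
    have h6 : δ' * X ≤ S.card * (40 * W) := by
      have h7 := mul_le_mul_of_nonneg_right h5 hX0.le
      have h8 : (S.card : ℝ) * (20 * W / X) * X = S.card * (20 * W) := by field_simp
      rw [h8] at h7
      linarith
    have h7 : (0 : ℝ) ≤ S.card := Nat.cast_nonneg _
    have h8 : δ' * X ≤ S.card * (40 * X ^ (ε / 2)) := by
      refine h6.trans ?_
      gcongr
    have h9 : X = X ^ (1 - ε) * (X ^ (ε / 2) * X ^ (ε / 2)) := by
      rw [← Real.rpow_add hX0, ← Real.rpow_add hX0]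
      have : 1 - ε + (ε / 2 + ε / 2) = 1 := by ring
      rw [this, Real.rpow_one]
    have h10 : 0 < X ^ (ε / 2) := by positivity
    have h11 : X ^ (1 - ε) * (40 * X ^ (ε / 2)) ≤ S.card * (40 * X ^ (ε / 2)) := by
      refine le_trans ?_ h8
      rw [div_le_iff₀ hδ'0] at g3
      calc X ^ (1 - ε) * (40 * X ^ (ε / 2)) ≤ X ^ (1 - ε) * (X ^ (ε / 2) * δ' * X ^ (ε / 2)) := by
            gcongr
        _ = δ' * (X ^ (1 - ε) * (X ^ (ε / 2) * X ^ (ε / 2))) := by ring
        _ = δ' * X := by rw [← h9]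
    exact le_of_mul_le_mul_right h11 (by positivity)

end Pool.Agent.U839.Disp
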