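import Mathlib
import Pool.Agent.U839.Disp.Small

set_option autoImplicit false

/-! # Displacements up to `(log p) ^ A`: empty windows longer than Cramér's bound -/

open MeasureTheory ProbabilityTheory Filter Finset Topology

namespace Pool.Agent.U839.Disp

variable {Ω : Type*} [MeasurableSpace Ω] {μ : Measure Ω} [IsProbabilityMeasure μ]

/-- the range of the displacement -/
noncomputable def DS (A : ℝ) (p : ℕ) : ℕ := ⌊(Real.log p) ^ A⌋₊ + 1

theorem DS_ge (A : ℝ) (p : ℕ) : (Real.log p) ^ A ≤ DS A p := by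
  unfold DS
  push_cast
  exact (Nat.lt_floor_add_one _).le

theorem DS_le (A : ℝ) (p : ℕ) : (DS A p : ℝ) ≤ (Real.log p) ^ A + 1 := by
  unfold DS
  push_cast
  have := Nat.floor_le (show 0 ≤ (Real.log p) ^ A from Real.rpow_nonneg (Real.log_natCast_nonneg p) A)
  linarith

theorem residue (S : Finset ℕ) (M : ℕ) (hM : 0 < M) :
    ∃ r, S.card ≤ M * (S.filter (fun n => n % M = r)).card := by
  by_contra hcon
  push Not at hcon
  have h1 : S.card = ∑ r ∈ range M, (S.filter (fun n => n % M = r)).card := by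
    apply Finset.card_eq_sum_card_fiberwise
    intro n _
    exact Finset.mem_coe.2 (Finset.mem_range.2 (Nat.mod_lt n hM))
  have h2 : ∑ r ∈ range M, M * (S.filter (fun n => n % M = r)).card < ∑ r ∈ range M, S.card := by
    apply Finset.sum_lt_sum_of_nonempty ⟨0, Finset.mem_range.2 hM⟩
    intro r _
    exact hcon r
  rw [← Finset.mul_sum, ← h1, Finset.sum_const, Finset.card_range, smul_eq_mul] at h2
  omega

/-- size conditions -/
theorem ev_small (A τ c δ : ℝ) (hA : 2 < A) (hτ : 0 < τ) (hc : 0 < c) (hδ : 0 < δ) :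
    ∀ᶠ X : ℝ in atTop, 8 ≤ Real.log X ∧ (Real.log X + 2) ^ A + 4 ≤ (1 + τ) * (Real.log X) ^ A ∧
      4 * (c * (Real.log X + 2) ^ 2) ≤ τ * (Real.log X) ^ A ∧
      (Real.log X + 2) ^ 2 ≤ (1 + τ) * (Real.log X) ^ 2 ∧
      (1 + 4 * τ) * (Real.log X) ^ A + 2 ≤ X ∧
      c * (Real.log X + 2) ^ 2 + 1 ≤ X ^ δ := by
  have tl := Real.tendsto_log_atTop
  -- ratio (L+2)/L → 1
  have r1 : Tendsto (fun X : ℝ => (Real.log X + 2) / Real.log X) atTop (𝓝 1) := by
    have h1 : Tendsto (fun X : ℝ => 1 + 2 / Real.log X) atTop (𝓝 (1 + 0)) :=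
      (tl.const_div_atTop 2).const_add 1
    rw [add_zero] at h1
    refine h1.congr' ?_
    filter_upwards [tl.eventually_gt_atTop 0] with X hX
    field_simp
  have r2 : Tendsto (fun X : ℝ => ((Real.log X + 2) / Real.log X) ^ A) atTop (𝓝 1) := by
    have := r1.rpow_const (p := A) (Or.inl one_ne_zero)
    rwa [Real.one_rpow] at this
  have r3 : Tendsto (fun X : ℝ => ((Real.log X + 2) / Real.log X) ^ 2) atTop (𝓝 1) := by
    have := r1.pow 2
    rwa [one_pow] at this
  have e1 := r2.eventually_le_const (show (1 : ℝ) < 1 + τ / 2 by linarith)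
  have e2 := r3.eventually_le_const (show (1 : ℝ) < 1 + τ by linarith)
  have e3 : ∀ᶠ X : ℝ in atTop, 8 / τ ≤ (Real.log X) ^ A :=
    ((tendsto_rpow_atTop (by linarith)).comp tl).eventually_ge_atTop _
  have e4 : ∀ᶠ X : ℝ in atTop, 4 * c * (1 + τ) / τ ≤ (Real.log X) ^ (A - 2) :=
    ((tendsto_rpow_atTop (by linarith)).comp tl).eventually_ge_atTop _
  have e5 : ∀ᶠ X : ℝ in atTop, (1 + 4 * τ) * (Real.log X) ^ A + 2 ≤ X := by
    have h1 := (isLittleO_log_rpow_rpow_atTop A (show (0 : ℝ) < 1 by norm_num)).bound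
      (show (0 : ℝ) < 1 / (2 * (1 + 4 * τ)) by positivity)
    filter_upwards [h1, tl.eventually_ge_atTop 1, eventually_ge_atTop (4 : ℝ)] with X g1 g2 g3
    rw [Real.norm_of_nonneg (by positivity), Real.norm_of_nonneg (by positivity), Real.rpow_one] at g1
    have h2 : (1 + 4 * τ) * (Real.log X) ^ A ≤ (1 + 4 * τ) * (1 / (2 * (1 + 4 * τ)) * X) := by gcongr
    have h3 : (1 + 4 * τ) * (1 / (2 * (1 + 4 * τ)) * X) = X / 2 := by field_simp
    linarith
  have e6 : ∀ᶠ X : ℝ in atTop, c * (Real.log X + 2) ^ 2 + 1 ≤ X ^ δ := by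
    have h1 := (isLittleO_log_rpow_rpow_atTop 2 hδ).bound
      (show (0 : ℝ) < 1 / (c * (1 + τ) + 1) by positivity)
    filter_upwards [h1, tl.eventually_ge_atTop 1, e2, eventually_ge_atTop (1 : ℝ)] with X g1 g2 g3 g4
    rw [Real.norm_of_nonneg (by positivity), Real.norm_of_nonneg (by positivity), Real.rpow_two] at g1
    have h2 : (Real.log X + 2) ^ 2 ≤ (1 + τ) * (Real.log X) ^ 2 := by
      rw [div_pow, div_le_iff₀ (by positivity)] at g3
      exact g3
    have h3 : (c * (1 + τ) + 1) * (Real.log X) ^ 2 ≤ X ^ δ := by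
      rw [one_div, inv_mul_eq_div, le_div_iff₀ (by positivity)] at g1
      linarith
    nlinarith
  filter_upwards [e1, e2, e3, e4, e5, e6, tl.eventually_ge_atTop 8] with X g1 g2 g3 g4 g5 g6 g7
  have hL0 : 0 < Real.log X := by linarith
  have k2 : (Real.log X + 2) ^ 2 ≤ (1 + τ) * (Real.log X) ^ 2 := by
    rw [div_pow, div_le_iff₀ (by positivity)] at g2
    exact g2
  refine ⟨g7, ?_, ?_, k2, g5, g6⟩
  · rw [Real.div_rpow (by linarith) hL0.le, div_le_iff₀ (by positivity)] at g1
    rw [div_le_iff₀ hτ] at g3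
    linarith
  · have h1 : (Real.log X) ^ A = (Real.log X) ^ (A - 2) * (Real.log X) ^ 2 := by
      rw [← Real.rpow_natCast, ← Real.rpow_add hL0]
      congr 1
      push_cast; ring
    rw [h1]
    rw [div_le_iff₀ hτ] at g4
    calc 4 * (c * (Real.log X + 2) ^ 2) ≤ 4 * (c * ((1 + τ) * (Real.log X) ^ 2)) := by gcongr
      _ = 4 * c * (1 + τ) * (Real.log X) ^ 2 := by ring
      _ ≤ (Real.log X ^ (A - 2) * τ) * (Real.log X) ^ 2 := by gcongr
      _ = _ := by ring

set_option maxHeartbeats 4000000 in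
theorem small_low.{u} (A : ℝ) (hA : 2 < A) : ∃ c : ℝ, 1 < c ∧ ∀ (Ω : Type u) [MeasurableSpace Ω]
    (μ : Measure Ω) [IsProbabilityMeasure μ] (ξ : ℕ → Ω → ℕ),
    (∀ p, Measurable (ξ p)) → iIndepFun ξ μ → Law μ ξ (DS A) →
    ∀ᵐ ω ∂μ, ∀ᶠ j : ℕ in atTop, ∃ t : ℕ, 2 ^ j < t ∧ t ≤ 2 ^ (j + 2) ∧
      ω ∈ EE ξ (Ioc t (t + Wd c t)) := by
  classical
  obtain ⟨δ, hδ, hδ1, hpoor⟩ := poor_many A (by linarith)
  set c : ℝ := 1 + δ / 8 with hc
  set τ : ℝ := δ / 64 with hτd
  have hτ : 0 < τ := by positivity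
  have hτ1 : τ ≤ 1 / 64 := by rw [hτd]; linarith
  refine ⟨c, by rw [hc]; linarith, ?_⟩
  intro Ω _ μ _ ξ hm hind hL
  have hc0 : 0 < c := by rw [hc]; linarith
  have key := ae_empty hm hind (δ / 8) (by positivity)
    (fun j I => ∃ t : ℕ, 2 ^ j < t ∧ t ≤ 2 ^ (j + 2) ∧ I = Ioc t (t + Wd c t)) ?_
  · filter_upwards [key] with ω hω
    filter_upwards [hω] with j hj
    obtain ⟨I, ⟨t, h1, h2, h3⟩, h4⟩ := hj
    exact ⟨t, h1, h2, h3 ▸ h4⟩
  have h2pow : Tendsto (fun j : ℕ => (2 : ℝ) ^ j) atTop atTop :=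
    tendsto_pow_atTop_atTop_of_one_lt (by norm_num)
  filter_upwards [h2pow.eventually (hpoor (δ / 16) (4 * τ) (by positivity) (by positivity)),
    h2pow.eventually (ev_small A τ c (δ / 16) hA hτ hc0 (by positivity))] with j g1 g2
  obtain ⟨S, hS1, hS2⟩ := g1
  obtain ⟨q1, q2, q3, q4, q5, q6⟩ := g2
  set X : ℝ := (2 : ℝ) ^ j with hX
  have hX0 : 0 < X := by positivity
  set L : ℝ := Real.log X with hLd
  have hL0 : 0 < L := by linarith
  have hLA : 0 < L ^ A := by positivity
  set M : ℕ := ⌊c * (L + 2) ^ 2⌋₊ + 1 with hM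
  have hMR : (M : ℝ) ≤ c * (L + 2) ^ 2 + 1 := by
    rw [hM]
    push_cast
    have := Nat.floor_le (show 0 ≤ c * (L + 2) ^ 2 by positivity)
    linarith
  obtain ⟨r, hr⟩ := residue S M (Nat.succ_pos _)
  set S' : Finset ℕ := S.filter (fun n => n % M = r) with hS'
  set s : ℕ := ⌊(1 + 2 * τ) * L ^ A⌋₊ with hs
  have hs1 : (s : ℝ) ≤ (1 + 2 * τ) * L ^ A := Nat.floor_le (by positivity)
  have hs2 : (1 + 2 * τ) * L ^ A - 1 ≤ s := (Nat.sub_one_lt_floor _).le
  have hτLA : 0 < τ * L ^ A := by positivity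
  -- elements of S'
  have hmem : ∀ n ∈ S', X < n ∧ (n : ℝ) < 3 * X ∧
      (pi2 n ⌊(n : ℝ) + (1 + 4 * τ) * L ^ A⌋₊ : ℝ) ≤ (1 - δ / 2) * ((1 + 4 * τ) * L ^ A / Real.log n) ∧
      n % M = r := by
    intro n hn
    rw [hS', Finset.mem_filter] at hn
    obtain ⟨h1, h2, h3⟩ := hS1 n hn.1
    exact ⟨h1, h2, h3, hn.2⟩
  have hX2 : ((2 ^ (j + 2) : ℕ) : ℝ) = 4 * X := by
    push_cast
    rw [pow_add, hX]; ring
  have hX1 : ((2 ^ j : ℕ) : ℝ) = X := by push_cast; rfl
  have hlog4 : Real.log 4 ≤ 2 := by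
    rw [show (4 : ℝ) = 2 ^ 2 by norm_num, Real.log_pow]
    have := Real.log_two_lt_d9
    push_cast; linarith
  have hlogX : ∀ m : ℕ, X < m → (m : ℝ) ≤ 4 * X → L ≤ Real.log m ∧ Real.log m ≤ L + 2 := by
    intro m h1 h2
    refine ⟨Real.log_le_log hX0 h1.le, ?_⟩
    have := Real.log_le_log (by linarith) h2
    rw [Real.log_mul (by norm_num) hX0.ne'] at this
    linarith
  have ht : ∀ n ∈ S', X < ((n + s : ℕ) : ℝ) ∧ ((n + s : ℕ) : ℝ) ≤ 4 * X := by
    intro n hn
    obtain ⟨h1, h2, -, -⟩ := hmem n hn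
    push_cast
    constructor
    · have : (0 : ℝ) ≤ s := Nat.cast_nonneg s
      linarith
    · linarith
  have hWt : ∀ n ∈ S', (Wd c (n + s) : ℝ) ≤ c * (L + 2) ^ 2 ∧ Wd c (n + s) < M := by
    intro n hn
    obtain ⟨h1, h2⟩ := ht n hn
    obtain ⟨h3, h4⟩ := hlogX _ h1 h2
    have h5 : c * (Real.log ((n + s : ℕ) : ℝ)) ^ 2 ≤ c * (L + 2) ^ 2 := by
      have : 0 ≤ Real.log ((n + s : ℕ) : ℝ) := by linarith
      gcongr
    constructor
    · exact (Nat.floor_le (by positivity)).trans h5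
    · rw [hM]
      exact Nat.lt_succ_of_le (Nat.floor_le_floor h5)
  refine ⟨S', fun n => Ioc (n + s) (n + s + Wd c (n + s)), ?_, ?_, ?_⟩
  · intro i hi j' hj' hij
    rw [Finset.disjoint_left]
    intro p hp hp'
    rw [Finset.mem_Ioc] at hp hp'
    have a3 := (hWt i hi).2
    have b3 := (hWt j' hj').2
    have c1 := (hmem i hi).2.2.2
    have c2 := (hmem j' hj').2.2.2
    have hmod : i ≡ j' [MOD M] := by
      show i % M = j' % M
      rw [c1, c2]
    rcases lt_or_gt_of_ne hij with h | h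
    · have h5 : M ∣ j' - i := (Nat.modEq_iff_dvd' h.le).1 hmod
      have h6 := Nat.le_of_dvd (by omega) h5
      omega
    · have h5 : M ∣ i - j' := (Nat.modEq_iff_dvd' h.le).1 hmod.symm
      have h6 := Nat.le_of_dvd (by omega) h5
      omega
  · intro n hn
    obtain ⟨h1, h2⟩ := ht n hn
    refine ⟨n + s, ?_, ?_, rfl⟩
    · rw [← hX1] at h1
      exact_mod_cast h1
    · rw [← hX2] at h2
      exact_mod_cast h2
  · -- probabilities
    have hterm : ∀ n ∈ S', X ^ (-(1 - δ / 4)) ≤
        μ.real (EE ξ (Ioc (n + s) (n + s + Wd c (n + s)))) := by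
      intro n hn
      obtain ⟨h1, h2, h3, -⟩ := hmem n hn
      obtain ⟨ht1, ht2⟩ := ht n hn
      obtain ⟨hW1, -⟩ := hWt n hn
      set t : ℕ := n + s with htd
      set W : ℕ := Wd c t with hW
      obtain ⟨ln1, ln2⟩ := hlogX n h1 (by linarith)
      set yn : ℕ := ⌊(n : ℝ) + (1 + 4 * τ) * L ^ A⌋₊ with hyn
      have hyn1 : (yn : ℝ) ≤ n + (1 + 4 * τ) * L ^ A := Nat.floor_le (by positivity)
      have hyn4 : (yn : ℝ) ≤ 4 * X := by linarith
      set T : Finset ℕ := (Ioc n yn).filter Nat.Prime with hT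
      have hTc : (T.card : ℝ) ≤ (1 - δ / 2) * ((1 + 4 * τ) * L ^ A / L) := by
        have e1 : (T.card : ℝ) = pi2 n yn := rfl
        rw [e1]
        refine h3.trans ?_
        apply mul_le_mul_of_nonneg_left _ (by linarith)
        gcongr
      set b : ℝ := (W : ℝ) / L ^ A with hb
      have hb0 : 0 ≤ b := by positivity
      have hb2 : 2 * b ≤ τ := by
        rw [hb, mul_div_assoc', div_le_iff₀ hLA]
        have : (0 : ℝ) ≤ W := Nat.cast_nonneg W
        linarith
      have htW : t + W ≤ yn := by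
        apply Nat.le_floor
        push_cast
        rw [htd]
        push_cast
        have : (W : ℝ) ≤ τ * L ^ A := by
          have : (0 : ℝ) ≤ W := Nat.cast_nonneg W
          linarith
        linarith
      have hlow := EE_lower hm hind (Ioc t (t + W)) T b hb0 (by linarith) (by
        intro p hp hpT
        apply HH_zero hm hL _ hp
        intro i hi
        rw [Finset.mem_Ioc] at hi
        rw [hT, Finset.mem_filter, Finset.mem_Ioc, not_and_or] at hpT
        have hpT' : ¬(n < p ∧ p ≤ yn) := by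
          rcases hpT with h | h
          · exact h
          · exact absurd hp h
        by_cases hpy : yn < p
        · left; omega
        · right
          have hpn : p ≤ n := by omega
          suffices h : p + DS A p ≤ t by omega
          have h5 := DS_le A p
          have h6 : Real.log p ≤ L + 2 := by
            refine le_trans ?_ ln2
            exact Real.log_le_log (by exact_mod_cast hp.pos) (by exact_mod_cast hpn)
          have h7 : (Real.log p) ^ A ≤ (L + 2) ^ A := by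
            apply Real.rpow_le_rpow (Real.log_natCast_nonneg p) h6 (by linarith)
          have h8 : (DS A p : ℝ) ≤ s := by linarith
          have h9 : DS A p ≤ s := by exact_mod_cast h8
          omega) (by
        intro p hp hpp
        have h5 := HH_le (μ := μ) hm hL (Ioc t (t + W)) hpp
        rw [card_win] at h5
        refine h5.trans ?_
        apply div_le_div_of_nonneg_left (Nat.cast_nonneg W) hLA
        rw [hT, Finset.mem_filter, Finset.mem_Ioc] at hp
        have h6 : X < p := by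
          have : (n : ℝ) < p := by exact_mod_cast hp.1.1
          linarith
        have h7 : (p : ℝ) ≤ 4 * X := by
          have : (p : ℝ) ≤ yn := by exact_mod_cast hp.1.2
          linarith
        refine le_trans ?_ (DS_ge A p)
        apply Real.rpow_le_rpow hL0.le (hlogX p h6 h7).1 (by linarith))
      refine le_trans ?_ hlow
      rw [Real.rpow_def_of_pos hX0]
      apply Real.exp_le_exp.2
      rw [mul_neg, neg_le_neg_iff, ← hLd]
      have hWL : b * ((1 + 4 * τ) * L ^ A / L) = W * (1 + 4 * τ) / L := by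
        rw [hb]
        field_simp
      calc (b + 2 * b ^ 2) * T.card ≤ (b * (1 + τ)) * ((1 - δ / 2) * ((1 + 4 * τ) * L ^ A / L)) := by
            apply mul_le_mul _ hTc (Nat.cast_nonneg _) (by positivity)
            nlinarith
        _ = (1 + τ) * (1 - δ / 2) * (b * ((1 + 4 * τ) * L ^ A / L)) := by ring
        _ = (1 + τ) * (1 - δ / 2) * (W * (1 + 4 * τ) / L) := by rw [hWL]
        _ ≤ (1 + τ) * (1 - δ / 2) * (c * (1 + τ) * L ^ 2 * (1 + 4 * τ) / L) := by
            apply mul_le_mul_of_nonneg_left _ (mul_nonneg (by linarith) (by linarith))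
            have h5 : (W : ℝ) ≤ c * (1 + τ) * L ^ 2 := by
              refine hW1.trans ?_
              calc c * (L + 2) ^ 2 ≤ c * ((1 + τ) * L ^ 2) := by gcongr
                _ = _ := by ring
            gcongr
        _ = ((1 + τ) * (1 + τ) * (1 + 4 * τ)) * (c * (1 - δ / 2)) * L := by
            field_simp
        _ ≤ (1 + δ / 8) * (c * (1 - δ / 2)) * L := by
            have h5 : (1 + τ) * (1 + τ) * (1 + 4 * τ) ≤ 1 + δ / 8 := by
              have h6 : δ / 8 = 8 * τ := by rw [hτd]; ring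
              rw [h6]
              nlinarith [mul_nonneg hτ.le hτ.le, mul_nonneg (mul_nonneg hτ.le hτ.le) hτ.le]
            have h6 : 0 ≤ c * (1 - δ / 2) := mul_nonneg hc0.le (by linarith)
            gcongr
        _ ≤ L * (1 - δ / 4) := by
            rw [mul_comm]
            apply mul_le_mul_of_nonneg_left _ hL0.le
            rw [hc]
            nlinarith [mul_nonneg hδ.le hδ.le]
    have hS'c : X ^ (1 - δ / 16) ≤ (c * (L + 2) ^ 2 + 1) * S'.card := by
      refine hS2.trans ?_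
      have h5 : (S.card : ℝ) ≤ M * S'.card := by exact_mod_cast hr
      refine h5.trans ?_
      gcongr
    have hS'c2 : X ^ (1 - δ / 8) ≤ S'.card := by
      have h5 : X ^ (1 - δ / 16) ≤ X ^ (δ / 16) * S'.card := by
        refine hS'c.trans ?_
        gcongr
      have h6 : X ^ (1 - δ / 16) = X ^ (δ / 16) * X ^ (1 - δ / 8) := by
        rw [← Real.rpow_add hX0]
        congr 1
        ring
      rw [h6] at h5
      exact le_of_mul_le_mul_left h5 (by positivity)
    calc (2 : ℝ) ^ (δ / 8 * j) = X ^ (δ / 8) := by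
          rw [hX, ← Real.rpow_natCast, ← Real.rpow_mul (by norm_num)]
          congr 1
          ring
      _ = X ^ (1 - δ / 8) * X ^ (-(1 - δ / 4)) := by
          rw [← Real.rpow_add hX0]
          congr 1
          ring
      _ ≤ S'.card * X ^ (-(1 - δ / 4)) := by gcongr
      _ = ∑ _n ∈ S', X ^ (-(1 - δ / 4)) := by rw [Finset.sum_const, nsmul_eq_mul]
      _ ≤ _ := Finset.sum_le_sum hterm

end Pool.Agent.U839.Disp
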