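import Mathlib
import Pool.Agent.U839.Disp.Small2

set_option autoImplicit false

/-! # The largest gap between displaced primes -/

open MeasureTheory ProbabilityTheory Filter Finset Topology

namespace Pool.Agent.U839.Disp

variable {Ω : Type*} [MeasurableSpace Ω] {μ : Measure Ω} [IsProbabilityMeasure μ]

/-- the set of the displaced primes -/
def QQ (ξ : ℕ → Ω → ℕ) (ω : Ω) : Set ℕ := {q | ∃ p : ℕ, p.Prime ∧ p + ξ p ω = q}

/-- the largest gap up to `X` -/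
noncomputable def GQ (Q : Set ℕ) (X : ℕ) : ℕ :=
  sSup {g | ∃ k, Nat.nth (· ∈ Q) (k + 1) ≤ X ∧ g = Nat.nth (· ∈ Q) (k + 1) - Nat.nth (· ∈ Q) k}

omit [MeasurableSpace Ω] in
theorem QQ_inf (ξ : ℕ → Ω → ℕ) (ω : Ω) : (QQ ξ ω).Infinite := by
  rw [Set.infinite_iff_exists_gt]
  intro N
  obtain ⟨p, hp1, hp2⟩ := Nat.exists_infinite_primes (N + 1)
  exact ⟨p + ξ p ω, ⟨p, hp2, rfl⟩, by omega⟩

theorem GQ_ge (Q : Set ℕ) (hQ : Q.Infinite) (t h X a b : ℕ) (ha : a ∈ Q) (hat : a ≤ t)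
    (hb : b ∈ Q) (htb : t < b) (hbX : b ≤ X) (hemp : ∀ m ∈ Q, ¬(t < m ∧ m ≤ t + h)) :
    h ≤ GQ Q X := by
  classical
  have hQ' : (Set.ofPred (· ∈ Q)).Infinite := hQ
  have hmono := Nat.nth_strictMono hQ'
  set k : ℕ := Nat.count (· ∈ Q) (t + 1) with hk
  have hk1 : 1 ≤ k := by
    rw [hk]
    have h1 : Nat.count (· ∈ Q) a < Nat.count (· ∈ Q) (t + 1) :=
      (Nat.lt_nth_iff_count_lt hQ').2 (by
        rw [Nat.nth_count (p := (· ∈ Q)) ha]
        omega)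
    omega
  have hkk : k - 1 + 1 = k := by omega
  have h1 : Nat.nth (· ∈ Q) (k - 1) < t + 1 := Nat.nth_lt_of_lt_count (by omega)
  have h2 : t + 1 ≤ Nat.nth (· ∈ Q) k := Nat.le_nth_count hQ' (t + 1)
  have h3 : Nat.nth (· ∈ Q) k ≤ b := by
    have h4 : Nat.count (· ∈ Q) (t + 1) ≤ Nat.count (· ∈ Q) b := Nat.count_monotone _ htb
    have h5 : Nat.nth (· ∈ Q) (Nat.count (· ∈ Q) b) = b := Nat.nth_count (p := (· ∈ Q)) hb
    rw [← h5]
    exact hmono.monotone h4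
  have h4 : Nat.nth (· ∈ Q) k ∈ Q := Nat.nth_mem_of_infinite hQ' _
  have h5 : t + h < Nat.nth (· ∈ Q) k := by
    by_contra hcon
    exact hemp _ h4 ⟨by omega, by omega⟩
  have hbdd : BddAbove {g | ∃ k, Nat.nth (· ∈ Q) (k + 1) ≤ X ∧
      g = Nat.nth (· ∈ Q) (k + 1) - Nat.nth (· ∈ Q) k} := by
    refine ⟨X, ?_⟩
    rintro g ⟨k, h1, rfl⟩
    omega
  have h6 : Nat.nth (· ∈ Q) k - Nat.nth (· ∈ Q) (k - 1) ≤ GQ Q X := by
    apply le_csSup hbdd
    refine ⟨k - 1, ?_, ?_⟩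
    · rw [hkk]; omega
    · rw [hkk]
  omega

theorem GQ_le (Q : Set ℕ) (hQ : Q.Infinite) (c : ℝ) (hc : 0 < c) (n₀ : ℕ) (hn₀ : 1 ≤ n₀)
    (h : ∀ n ≥ n₀, ∃ m ∈ Q, n < m ∧ m ≤ n + Wd c n) (X : ℕ) :
    GQ Q X ≤ max (n₀ + Wd c n₀) (Wd c X) := by
  classical
  have hQ' : (Set.ofPred (· ∈ Q)).Infinite := hQ
  have hmono := Nat.nth_strictMono hQ'
  apply csSup_le'
  rintro g ⟨k, hk, rfl⟩
  set a : ℕ := Nat.nth (· ∈ Q) k with ha
  set b : ℕ := Nat.nth (· ∈ Q) (k + 1) with hb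
  have hab : a < b := hmono (Nat.lt_succ_self k)
  have hnext : ∀ m ∈ Q, a < m → b ≤ m := by
    intro m hm ham
    have h3 : k < Nat.count (· ∈ Q) m := (Nat.lt_nth_iff_count_lt hQ').2 ham
    have h4 : Nat.nth (· ∈ Q) (Nat.count (· ∈ Q) m) = m := Nat.nth_count (p := (· ∈ Q)) hm
    rw [← h4]
    exact hmono.monotone h3
  by_cases han : a < n₀
  · obtain ⟨m, hm, h1, h2⟩ := h n₀ le_rfl
    have h3 := hnext m hm (by omega)
    exact le_max_of_le_left (by omega)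
  · push Not at han
    obtain ⟨m, hm, h1, h2⟩ := h a han
    have h3 := hnext m hm h1
    apply le_max_of_le_right
    have h4 : Wd c a ≤ Wd c X := by
      apply Nat.floor_le_floor
      have h5 : Real.log a ≤ Real.log X :=
        Real.log_le_log (by exact_mod_cast (by omega : 0 < a)) (by exact_mod_cast (by omega : a ≤ X))
      have h6 : 0 ≤ Real.log a := Real.log_natCast_nonneg a
      gcongr
    omega

/-- displacements are at most `D` -/
theorem xi_le {ξ : ℕ → Ω → ℕ} (hm : ∀ p, Measurable (ξ p)) {D : ℕ → ℕ} (hL : Law μ ξ D)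
    (hD : ∀ p, 1 ≤ D p) : ∀ᵐ ω ∂μ, ∀ p : ℕ, p.Prime → ξ p ω ≤ D p := by
  rw [ae_all_iff]
  intro p
  by_cases hp : p.Prime
  · have h1 : μ.real (⋃ j ∈ Icc 1 (D p), ξ p ⁻¹' {j}) = 1 := by
      rw [measureReal_biUnion_finset]
      · have h2 : ∀ j ∈ Icc 1 (D p), μ.real (ξ p ⁻¹' {j}) = 1 / (D p : ℝ) := by
          intro j hj
          rw [Finset.mem_Icc] at hj
          rw [hL p hp, if_pos hj]
        rw [Finset.sum_congr rfl h2, Finset.sum_const, Nat.card_Icc, nsmul_eq_mul,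
          Nat.add_sub_cancel]
        have : (D p : ℝ) ≠ 0 := by
          have := hD p
          positivity
        field_simp
      · intro i _ i' _ hne
        rw [Function.onFun, Set.disjoint_left]
        intro ω h2 h3
        rw [Set.mem_preimage, Set.mem_singleton_iff] at h2 h3
        exact hne (by omega)
      · intro i _
        exact hm p (measurableSet_singleton _)
    have hmeas : MeasurableSet (⋃ j ∈ Icc 1 (D p), ξ p ⁻¹' {j}) :=
      Finset.measurableSet_biUnion _ fun i _ => hm p (measurableSet_singleton _)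
    have h3 : μ.real (⋃ j ∈ Icc 1 (D p), ξ p ⁻¹' {j})ᶜ = 0 := by
      rw [probReal_compl_eq_one_sub hmeas, h1, sub_self]
    rw [measureReal_eq_zero_iff] at h3
    have h4 : ∀ᵐ ω ∂μ, ω ∉ (⋃ j ∈ Icc 1 (D p), ξ p ⁻¹' {j})ᶜ :=
      measure_eq_zero_iff_ae_notMem.1 h3
    filter_upwards [h4] with ω hω _
    rw [Set.notMem_compl_iff] at hω
    simp only [Set.mem_iUnion, Finset.mem_Icc, Set.mem_preimage, Set.mem_singleton_iff,
      exists_prop] at hω
    obtain ⟨j, ⟨_, h6⟩, h7⟩ := hω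
    omega
  · filter_upwards with ω h
    exact absurd h hp

/-- from empty windows in dyadic blocks to the lower bound for the largest gap -/
theorem fin_low (Q : Set ℕ) (hQ : Q.Infinite) (c c' : ℝ) (hc' : 0 < c') (hcc : c' < c)
    (h1 : ∀ᶠ j : ℕ in atTop, ∃ t : ℕ, 2 ^ j < t ∧ t ≤ 2 ^ (j + 2) ∧
      ∀ m ∈ Q, ¬(t < m ∧ m ≤ t + Wd c t))
    (h2 : ∀ᶠ t : ℕ in atTop, ∃ b ∈ Q, t < b ∧ b ≤ 3 * t) :
    ∀ᶠ X : ℕ in atTop, c' * (Real.log X) ^ 2 ≤ GQ Q X := by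
  obtain ⟨a, ha⟩ := hQ.nonempty
  obtain ⟨t₀, ht₀⟩ := eventually_atTop.1 h2
  have hl2 : 0 < Real.log 2 := Real.log_pos (by norm_num)
  have hcpos : 0 < c := hc'.trans hcc
  -- comparison
  have e1 : ∀ᶠ j : ℕ in atTop, c' * (((j : ℝ) + 5) * Real.log 2) ^ 2 ≤ c * (j * Real.log 2) ^ 2 - 1 := by
    have t1 : Tendsto (fun j : ℕ => (j : ℝ)) atTop atTop := tendsto_natCast_atTop_atTop
    have hK : 0 < (c - c') * (Real.log 2) ^ 2 := mul_pos (by linarith) (by positivity)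
    filter_upwards [t1.eventually_ge_atTop ((c' * 35 * (Real.log 2) ^ 2 + 1) /
      ((c - c') * (Real.log 2) ^ 2)), t1.eventually_ge_atTop 1] with j g1 g2
    rw [div_le_iff₀ hK] at g1
    have g3 : (c' * 35 * (Real.log 2) ^ 2 + 1) * j ≤ (j * ((c - c') * (Real.log 2) ^ 2)) * j :=
      mul_le_mul_of_nonneg_right g1 (by linarith)
    have g4 : c' * (Real.log 2) ^ 2 * 25 ≤ c' * (Real.log 2) ^ 2 * 25 * j := by
      have : 0 ≤ c' * (Real.log 2) ^ 2 * 25 := by positivity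
      nlinarith
    nlinarith
  obtain ⟨j₀, hj₀⟩ := eventually_atTop.1 (h1.and (e1.and (eventually_ge_atTop (max t₀ a))))
  refine eventually_atTop.2 ⟨2 ^ (j₀ + 4), fun X hX => ?_⟩
  -- the block
  set l : ℕ := Nat.log 2 X with hl
  have hX0 : X ≠ 0 := by
    have : 0 < 2 ^ (j₀ + 4) := by positivity
    omega
  have hl1 : 2 ^ l ≤ X := Nat.pow_log_le_self 2 hX0
  have hl2' : X < 2 ^ (l + 1) := Nat.lt_pow_succ_log_self (by norm_num) X
  have hl3 : j₀ + 4 ≤ l := Nat.le_log_of_pow_le (by norm_num) hX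
  obtain ⟨⟨t, k1, k2, k3⟩, k4, k5⟩ := hj₀ (l - 4) (by omega)
  set j : ℕ := l - 4 with hj
  have hlj : l = j + 4 := by omega
  have hjt : j < 2 ^ j := Nat.lt_two_pow_self
  have k6 : t₀ ≤ j := (le_max_left _ _).trans k5
  have k7 : a ≤ j := (le_max_right _ _).trans k5
  obtain ⟨b, hb1, hb2, hb3⟩ := ht₀ t (by omega)
  have hbX : b ≤ X := by
    have : 3 * t ≤ 2 ^ (j + 4) := by
      have h5 : (2 : ℕ) ^ (j + 4) = 4 * 2 ^ (j + 2) := by ring
      omega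
    rw [hlj] at hl1
    omega
  have h6 := GQ_ge Q hQ t (Wd c t) X a b ha (by omega) hb1 hb2 hbX k3
  have h7 : (Wd c t : ℝ) ≤ GQ Q X := by exact_mod_cast h6
  refine le_trans ?_ h7
  have h8 : c * (Real.log t) ^ 2 - 1 ≤ Wd c t := (Nat.sub_one_lt_floor _).le
  have h9 : (j : ℝ) * Real.log 2 ≤ Real.log t := by
    rw [← Real.log_pow]
    apply Real.log_le_log (by positivity)
    exact_mod_cast k1.le
  have h10 : Real.log X ≤ ((j : ℝ) + 5) * Real.log 2 := by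
    have h11 : (X : ℝ) ≤ 2 ^ (j + 5) := by
      rw [hlj] at hl2'
      exact_mod_cast hl2'.le
    have := Real.log_le_log (by exact_mod_cast Nat.pos_of_ne_zero hX0) h11
    rw [Real.log_pow] at this
    push_cast at this
    exact this
  have h11 : 0 ≤ Real.log X := Real.log_natCast_nonneg X
  calc c' * (Real.log X) ^ 2 ≤ c' * (((j : ℝ) + 5) * Real.log 2) ^ 2 := by gcongr
    _ ≤ c * (j * Real.log 2) ^ 2 - 1 := k4
    _ ≤ c * (Real.log t) ^ 2 - 1 := by gcongr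
    _ ≤ _ := h8

/-- `Wd c t ≤ t` -/
theorem Wd_small (c : ℝ) : ∀ᶠ t : ℕ in atTop, Wd c t ≤ t := by
  filter_upwards [EB_large 0 c 2] with t ht
  unfold EB at ht
  rw [pow_zero, div_one] at ht
  have := Nat.floor_le_floor ht
  rwa [Nat.floor_natCast] at this

/-- the two theorems -/
theorem large_fin (B : ℕ) (hB : 1 ≤ B) {ξ : ℕ → Ω → ℕ}
    (hm : ∀ p, Measurable (ξ p)) (hind : iIndepFun ξ μ) (hL : Law μ ξ (DL B)) :
    ∀ᵐ ω ∂μ, Tendsto (fun X : ℕ => (GQ (QQ ξ ω) X : ℝ) / (Real.log X) ^ 2) atTop (𝓝 1) := by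
  have u1 : ∀ᵐ ω ∂μ, ∀ i : ℕ, ∀ᶠ t : ℕ in atTop, ω ∉ EE ξ (Ioc t (t + Wd (1 + 1 / ((i : ℝ) + 1)) t)) := by
    rw [ae_all_iff]
    intro i
    apply large_up B hB _ _ hm hind hL
    have : 0 < 1 / ((i : ℝ) + 1) := by positivity
    linarith
  have l1 : ∀ᵐ ω ∂μ, ∀ i : ℕ, ∀ᶠ j : ℕ in atTop, ∃ t : ℕ, 2 ^ j < t ∧ t ≤ 2 ^ (j + 1) ∧
      ω ∈ EE ξ (Ioc t (t + Wd (1 - 1 / ((i : ℝ) + 2)) t)) := by
    rw [ae_all_iff]
    intro i
    have hi : (0 : ℝ) < (i : ℝ) + 2 := by positivity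
    have hi0 : (0 : ℝ) ≤ i := Nat.cast_nonneg i
    apply large_low B hB _ _ _ hm hind hL
    · rw [sub_pos, div_lt_one hi]
      linarith
    · have : 0 < 1 / ((i : ℝ) + 2) := by positivity
      linarith
  filter_upwards [u1, l1] with ω hu hl
  have hinf := QQ_inf ξ ω
  -- windows contain elements
  have hup : ∀ i : ℕ, ∀ᶠ t : ℕ in atTop, ∃ m ∈ QQ ξ ω, t < m ∧ m ≤ t + Wd (1 + 1 / ((i : ℝ) + 1)) t := by
    intro i
    filter_upwards [hu i] with t ht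
    unfold EE at ht
    rw [Set.mem_ofPred_eq] at ht
    push Not at ht
    obtain ⟨p, hp, hpI⟩ := ht
    rw [Finset.mem_Ioc] at hpI
    exact ⟨p + ξ p ω, ⟨p, hp, rfl⟩, hpI⟩
  have h2 : ∀ᶠ t : ℕ in atTop, ∃ b ∈ QQ ξ ω, t < b ∧ b ≤ 3 * t := by
    filter_upwards [hup 0, Wd_small (1 + 1 / (((0 : ℕ) : ℝ) + 1))] with t h1 h2
    obtain ⟨m, hm1, hm2, hm3⟩ := h1
    exact ⟨m, hm1, hm2, by omega⟩
  rw [tendsto_order]
  constructor
  · intro a ha
    -- lower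
    obtain ⟨i, hi⟩ := exists_nat_gt (1 / (1 - max a (1 / 2)))
    have hmax : max a (1 / 2) < 1 := max_lt ha (by norm_num)
    have h1m : 0 < 1 - max a (1 / 2) := by linarith
    rw [div_lt_iff₀ h1m] at hi
    have hi2 : (0 : ℝ) < (i : ℝ) + 2 := by positivity
    have h3 : max a (1 / 2) < 1 - 1 / ((i : ℝ) + 2) := by
      have : 1 / ((i : ℝ) + 2) < 1 - max a (1 / 2) := by
        rw [div_lt_iff₀ hi2]
        nlinarith
      linarith
    obtain ⟨a', ha1, ha2⟩ := exists_between h3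
    have ha0 : 0 < a' := lt_of_lt_of_le (by norm_num) ((le_max_right a (1 / 2)).trans ha1.le)
    have h4 := fin_low (QQ ξ ω) hinf (1 - 1 / ((i : ℝ) + 2)) a' ha0 ha2 (by
      filter_upwards [hl i] with j hj
      obtain ⟨t, t1, t2, t3⟩ := hj
      refine ⟨t, t1, ?_, ?_⟩
      · have : (2 : ℕ) ^ (j + 2) = 2 * 2 ^ (j + 1) := by ring
        omega
      · rintro m ⟨p, hp, rfl⟩ hcon
        exact t3 p hp (Finset.mem_Ioc.2 hcon)) h2
    filter_upwards [h4, tlog.eventually_ge_atTop 1] with X hX hX1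
    rw [lt_div_iff₀ (by positivity)]
    refine lt_of_lt_of_le ?_ hX
    have : a < a' := lt_of_le_of_lt (le_max_left _ _) ha1
    gcongr
  · intro a ha
    obtain ⟨i, hi⟩ := exists_nat_gt (1 / (a - 1))
    have h1m : 0 < a - 1 := by linarith
    rw [div_lt_iff₀ h1m] at hi
    have hi2 : (0 : ℝ) < (i : ℝ) + 1 := by positivity
    set c : ℝ := 1 + 1 / ((i : ℝ) + 1) with hc
    have h3 : c < a := by
      have : 1 / ((i : ℝ) + 1) < a - 1 := by
        rw [div_lt_iff₀ hi2]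
        nlinarith
      rw [hc]; linarith
    have hc0 : 0 < c := by rw [hc]; positivity
    obtain ⟨n₀, hn₀⟩ := eventually_atTop.1 (hup i)
    have h4 := GQ_le (QQ ξ ω) hinf c hc0 (n₀ + 1) (by omega) (fun n hn => hn₀ n (by omega))
    have h5 : ∀ᶠ X : ℕ in atTop, ((n₀ + 1 + Wd c (n₀ + 1) : ℕ) : ℝ) ≤ c * (Real.log X) ^ 2 := by
      have t2 : Tendsto (fun X : ℕ => c * (Real.log X) ^ 2) atTop atTop :=
        (((tendsto_pow_atTop two_ne_zero).comp tlog)).const_mul_atTop hc0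
      exact t2.eventually_ge_atTop _
    filter_upwards [h5, tlog.eventually_ge_atTop 1] with X hX hX1
    rw [div_lt_iff₀ (by positivity)]
    have h6 : (GQ (QQ ξ ω) X : ℝ) ≤ max ((n₀ + 1 + Wd c (n₀ + 1) : ℕ) : ℝ) (Wd c X : ℝ) := by
      exact_mod_cast h4 X
    have h7 : (Wd c X : ℝ) ≤ c * (Real.log X) ^ 2 := Nat.floor_le (by positivity)
    refine lt_of_le_of_lt (h6.trans (max_le hX h7)) ?_
    gcongr

theorem small_fin.{u} (A : ℝ) (hA : 2 < A) : ∃ c : ℝ, 1 < c ∧ ∀ (Ω : Type u) [MeasurableSpace Ω]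
    (μ : Measure Ω) [IsProbabilityMeasure μ] (ξ : ℕ → Ω → ℕ),
    (∀ p, Measurable (ξ p)) → iIndepFun ξ μ → Law μ ξ (DS A) →
    ∀ᵐ ω ∂μ, ∀ᶠ X : ℕ in atTop, c * (Real.log X) ^ 2 ≤ GQ (QQ ξ ω) X := by
  obtain ⟨c, hc, h⟩ := small_low A hA
  obtain ⟨c', hc1, hc2⟩ := exists_between hc
  refine ⟨c', hc1, ?_⟩
  intro Ω _ μ _ ξ hm hind hL
  filter_upwards [h Ω μ ξ hm hind hL, xi_le hm hL (fun p => by unfold DS; omega)] with ω h1 h2
  apply fin_low (QQ ξ ω) (QQ_inf ξ ω) c c' (by linarith) hc2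
  · filter_upwards [h1] with j hj
    obtain ⟨t, t1, t2, t3⟩ := hj
    refine ⟨t, t1, t2, ?_⟩
    rintro m ⟨p, hp, rfl⟩ hcon
    exact t3 p hp (Finset.mem_Ioc.2 hcon)
  · -- Bertrand
    have e1 : ∀ᶠ n : ℕ in atTop, (Real.log n) ^ A + 1 ≤ n / 2 := by
      have h3 := (isLittleO_log_rpow_rpow_atTop A (show (0 : ℝ) < 1 by norm_num)).bound
        (show (0 : ℝ) < 1 / 4 by positivity)
      have h4 := tendsto_natCast_atTop_atTop.eventually h3
      filter_upwards [h4, tlog.eventually_ge_atTop 0, eventually_ge_atTop 4] with n g1 g2 g3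
      rw [Real.norm_of_nonneg (by positivity), Real.norm_of_nonneg (by positivity), Real.rpow_one] at g1
      have : (4 : ℝ) ≤ n := by exact_mod_cast g3
      linarith
    obtain ⟨n₁, hn₁⟩ := eventually_atTop.1 e1
    filter_upwards [eventually_ge_atTop (n₁ + 1)] with t ht
    obtain ⟨p, hp, hp1, hp2⟩ := Nat.exists_prime_lt_and_le_two_mul t (by omega)
    refine ⟨p + ξ p ω, ⟨p, hp, rfl⟩, by omega, ?_⟩
    have h3 := h2 p hp
    have h4 := DS_le A p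
    have h5 := hn₁ p (by omega)
    have h6 : (DS A p : ℝ) ≤ t := by
      have : (p : ℝ) ≤ 2 * t := by exact_mod_cast hp2
      linarith
    have h7 : DS A p ≤ t := by exact_mod_cast h6
    omega

end Pool.Agent.U839.Disp
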